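import Mathlib

/-!
# Project bnd (MP_376aaf_an): crossed products by ℤ, the range of the K₀-part of the invariant. Definitions

BAND SYSTEMS. A level has finitely many letters `e < N`. The letters `e < n` are the vertices. A band `n ≤ e < N` is a
one-parameter family `(e, s)`, `0 ≤ s ≤ 1`, of letters of height `h e`; for `s = 0`, `s = 1` it is identified with its
end words `W e false`, `W e true`, words in the vertices of the same height. The floors `((e, s), i)`, `i < h e`, form a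
finite graph `FS l`, realised in `Am` by `emb`. A letter of the level `m + 1` is a word `w m e s` in the letters of the
level `m`, which depends continuously on `s`. The space `XS B` is the inverse limit of the graphs of the levels, and the
homeomorphism moves up one floor.
-/

set_option autoImplicit false

open scoped Topology
open Finset

namespace Pool.Agent.BND

/-- the ambient space of all graphs of floors -/
abbrev Am : Type := ℕ × ℕ → ℂ

/-- the interval `[0, 1]` -/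
abbrev U : Set ℝ := Set.Icc 0 1

/-- a level: letters `e < N`, vertices `e < n`, heights `h`, end words `W e false`, `W e true` -/
structure Lv where
  n : ℕ
  N : ℕ
  h : ℕ → ℕ
  W : ℕ → Bool → List ℕ

structure IsLv (l : Lv) : Prop where
  n0 : 0 < l.n
  nN : l.n ≤ l.N
  pos : ∀ e, e < l.N → 0 < l.h e
  vtx : ∀ e, e < l.n → ∀ b, l.W e b = [e]
  mem : ∀ e, e < l.N → ∀ b, ∀ v ∈ l.W e b, v < l.n
  ht : ∀ e, e < l.N → ∀ b, ((l.W e b).map l.h).sum = l.h e

/-- the floor `i` of a word in the vertices: (vertex, floor) -/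
def fl (h : ℕ → ℕ) : List ℕ → ℕ → ℕ × ℕ
  | [], _ => (0, 0)
  | a :: u, i => if i < h a then (a, i) else fl h u (i - h a)

/-- the point `((e, s), i)` of the graph of floors -/
noncomputable def emb (l : Lv) (e : ℕ) (s : ℝ) (i : ℕ) : Am :=
  if e < l.n then Pi.single (e, i) 1 else
    ((1 - s : ℝ) : ℂ) • Pi.single (fl l.h (l.W e false) i) 1 +
      (s : ℂ) • Pi.single (fl l.h (l.W e true) i) 1 +
      Pi.single (e, i) (((s * (1 - s) : ℝ) : ℂ) * (1 + (s : ℂ) * Complex.I))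

/-- the graph of floors -/
def FS (l : Lv) : Set Am := {y | ∃ e s i, e < l.N ∧ s ∈ U ∧ i < l.h e ∧ y = emb l e s i}

/-- `(e, s)` is a letter in canonical form: a vertex or an interior point of a band -/
def Can (l : Lv) (e : ℕ) (s : ℝ) : Prop := e < l.N ∧ (e < l.n ∨ (0 < s ∧ s < 1)) ∧ s ∈ U

/-- the height of a word in the letters `(e, s)` -/
def hw (h : ℕ → ℕ) (w : List (ℕ × ℝ)) : ℕ := (w.map fun a => h a.1).sum

/-- the floor `i` of a word in the letters `(e, s)`; `Φ e s` are the floors of `(e, s)` -/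
def fw {Z : Type} [Zero Z] (h : ℕ → ℕ) (Φ : ℕ → ℝ → ℕ → Z) : List (ℕ × ℝ) → ℕ → Z
  | [], _ => 0
  | a :: w, i => if i < h a.1 then Φ a.1 a.2 i else fw h Φ w (i - h a.1)

/-- the sum of a function over the letters of a word -/
def sw {Z : Type} [AddCommMonoid Z] (σ : ℕ → ℝ → Z) (w : List (ℕ × ℝ)) : Z :=
  (w.map fun a => σ a.1 a.2).sum

/-- a band system: levels `L m`, words `w m e s` (level `m`) of the letters `(e, s)` of the level `m + 1`,
finite sets `S m` of parameters -/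
structure BS where
  L : ℕ → Lv
  w : ℕ → ℕ → ℝ → List (ℕ × ℝ)
  S : ℕ → Set ℝ

namespace BS

variable (B : BS)

/-- the floor `i` of the word of level `m` of the letter `(e, s)` of the level `m + 1` -/
noncomputable def st (m e : ℕ) (s : ℝ) (i : ℕ) : Am := fw (B.L m).h (emb (B.L m)) (B.w m e s) i

/-- `lp k d e s i`: the floor of level `k` below the floor `i` of the letter `(e, s)` of the level `k + d` -/
noncomputable def lp (k : ℕ) : ℕ → ℕ → ℝ → ℕ → Am
  | 0 => emb (B.L k)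
  | d + 1 => fun e s i => fw (B.L (k + d)).h (lp k d) (B.w (k + d) e s) i

end BS

/-- the axioms of a band system; `M m v' v` is the number of the vertices `v` in the word of the vertex `v'` of the level
`m + 1`, bands being counted as their first end words -/
structure IsBS (B : BS) (M : ℕ → ℕ → ℕ → ℕ) : Prop where
  lv : ∀ m, IsLv (B.L m)
  big : ∀ m e, e < (B.L m).N → m + 1 ≤ (B.L m).h e
  htw : ∀ m e s, e < (B.L (m + 1)).N → s ∈ U → hw (B.L m).h (B.w m e s) = (B.L (m + 1)).h e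
  lett : ∀ m e s, e < (B.L (m + 1)).N → s ∈ U → ∀ a ∈ B.w m e s, a.1 < (B.L m).N ∧ a.2 ∈ U
  vtx : ∀ m e s, e < (B.L (m + 1)).n → B.w m e s = B.w m e 0
  cont : ∀ m e i, e < (B.L (m + 1)).N → i < (B.L (m + 1)).h e → ContinuousOn (fun s => B.st m e s i) U
  ends : ∀ m e (b : Bool) i, e < (B.L (m + 1)).N → i < (B.L (m + 1)).h e →
    B.st m e (if b then 1 else 0) i =
      fw (B.L m).h (emb (B.L m)) (((B.L (m + 1)).W e b).flatMap fun v => B.w m v 0) i
  bot : ∀ m e s, e < (B.L (m + 1)).N → s ∈ U → (B.w m e s).head? = some (0, 0)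
  top : ∀ m e s, e < (B.L (m + 1)).N → s ∈ U → (B.w m e s).getLast? = some (0, 0)
  dns : ∀ m e' s', e' < (B.L (m + 1)).N → s' ∈ U → ∀ e t, e < (B.L m).N → t ∈ U →
    ∃ t' ∈ U, (e, t') ∈ B.w m e' s' ∧ ∀ k d, k + d = m → ∀ i, i < (B.L m).h e → ∀ c,
      ‖B.lp k d e t i c - B.lp k d e t' i c‖ ≤ 1 / ((m : ℝ) + 1)
  cov : ∀ m e t, e < (B.L m).N → t ∈ U → ∃ e' s', e' < (B.L (m + 1)).N ∧ s' ∈ U ∧ (e, t) ∈ B.w m e' s'
  sfin : ∀ m, (B.S m).Finite
  onev : ∀ m e, e < (B.L (m + 1)).n → ∀ a ∈ B.w m e 0, a.1 < (B.L m).n ∨ a.2 ∈ B.S m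
  oneb : ∀ m e s, e < (B.L (m + 1)).N → s ∈ U → ∃ P x Q, B.w m e s = P ++ x :: Q ∧
    ∀ a ∈ P ++ Q, a.1 < (B.L m).n ∨ a.2 ∈ B.S m
  cnt : ∀ m v' (z : ℕ → ℤ), v' < (B.L (m + 1)).n →
    sw (fun e _ => (((B.L m).W e false).map z).sum) (B.w m v' 0) = ∑ v ∈ range (B.L m).n, (M m v' v : ℤ) * z v
  st1 : ∀ m v' (σ : ℕ → ℝ → ℝ), v' < (B.L (m + 1)).n →
    (∀ e s, e < (B.L m).N → s ∈ U → |σ e s| ≤ (B.L m).h e) →
    |sw σ (B.w m v' 0) - ∑ v ∈ range (B.L m).n, (M m v' v : ℝ) * σ v 0| ≤ (1 / 2) ^ m * (B.L (m + 1)).h v'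
  st2 : ∀ m e s (σ : ℕ → ℝ → ℝ), e < (B.L (m + 1)).N → s ∈ U →
    (∀ e s, e < (B.L m).N → s ∈ U → |σ e s| ≤ (B.L m).h e) →
    ∃ r ∈ U, |sw σ (B.w m e s) - ((1 - r) * (((B.L (m + 1)).W e false).map fun v => sw σ (B.w m v 0)).sum +
      r * (((B.L (m + 1)).W e true).map fun v => sw σ (B.w m v 0)).sum)| ≤ (1 / 2) ^ m * (B.L (m + 1)).h e

/-- the group data: `th m v` are strictly positive elements (`P x`: `x ≫ 0`) of the group, `H'` a subgroup -/
structure IsTh {H : Type} [AddCommGroup H] (B : BS) (M : ℕ → ℕ → ℕ → ℕ) (P : H → Prop) (g : H) (th : ℕ → ℕ → H)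
    (H' : AddSubgroup H) : Prop where
  pos : ∀ m v, v < (B.L m).n → P (th m v)
  unit : ∀ m, ∑ v ∈ range (B.L m).n, (B.L m).h v • th m v = g
  th_eq : ∀ m v, v < (B.L m).n → th m v = ∑ v' ∈ range (B.L (m + 1)).n, M m v' v • th (m + 1) v'
  kill : ∀ m (z : ℕ → ℤ), ∑ v ∈ range (B.L m).n, z v • th m v = 0 →
    ∀ v', v' < (B.L (m + 1)).n → ∑ v ∈ range (B.L m).n, (M m v' v : ℤ) * z v = 0
  span : ∀ x, P x → ∃ m, ∃ c : ℕ → ℕ, x = ∑ v ∈ range (B.L m).n, c v • th m v
  bnd : ∀ m (z : ℕ → ℤ), (∀ e, e < (B.L m).N → (((B.L m).W e false).map z).sum = (((B.L m).W e true).map z).sum) ↔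
    ∑ v ∈ range (B.L m).n, z v • th m v ∈ H'

/-- the bottom and the top floor of the first vertex -/
noncomputable def bt (l : Lv) : Am := emb l 0 0 0

noncomputable def tp (l : Lv) : Am := emb l 0 0 (l.h 0 - 1)

/-- the space of the system: sequences of points of the graphs of floors, compatible with the words -/
def XS (B : BS) : Set (ℕ → Am) :=
  {x | ∀ m, x m ∈ FS (B.L m) ∧ ∀ e s i, e < (B.L (m + 1)).N → s ∈ U → i < (B.L (m + 1)).h e →
    x (m + 1) = emb (B.L (m + 1)) e s i → x m = B.st m e s i}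

/-- `α` moves up one floor -/
def IsAl (B : BS) (α : ↥(XS B) ≃ₜ ↥(XS B)) : Prop :=
  ∀ (x : ↥(XS B)) (m e : ℕ) (s : ℝ) (i : ℕ), e < (B.L (m + 1)).N → s ∈ U → i < (B.L (m + 1)).h e →
    x.1 (m + 1) = emb (B.L (m + 1)) e s i →
    (α x).1 m = if i + 1 < (B.L (m + 1)).h e then B.st m e s (i + 1) else bt (B.L m)

end Pool.Agent.BND
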