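import Pool.Agent.helper77.BND.SpecF

/-!
# Project bnd (MP_376aaf_an): the final theorems
-/

set_option autoImplicit false

namespace Pool.Agent.BND

open Pool.Agent.CZ Pool.Agent.PV Pool.Agent.PVH

/-- `G₀ = H ⊕ S` with `H` torsion free, `g ∈ H`, `ρ(S) = 0` -/
def Cond0 {G₀ : Type} [AddCommGroup G₀] (g : G₀) {E : Type} [AddCommGroup E] [Module ℝ E] [TopologicalSpace E] (K : Set E)
    (ρ : G₀ →+ C(K, ℝ)) : Prop :=
  ∃ H S : AddSubgroup G₀, IsCompl H S ∧ g ∈ H ∧ (∀ (n : ℕ) (x : G₀), n ≠ 0 → x ∈ H → n • x = 0 → x = 0) ∧ ∀ x ∈ S, ρ x = 0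

theorem Fin_base (hFK0 : FK0_stmt) (hFAS : FAS_stmt) (E : Type) [AddCommGroup E] [Module ℝ E]
    [TopologicalSpace E] [IsTopologicalAddGroup E] [ContinuousSMul ℝ E] [LocallyConvexSpace ℝ E] [T2Space E]
    (K : Set E) [TopologicalSpace.MetrizableSpace K] (hK : IsCompact K) (hc : Convex ℝ K) (hn : K.Nonempty) (hs : IsSimplex K)
    (G₀ : Type) [AddCommGroup G₀] [Countable G₀] (g : G₀) (ρ : G₀ →+ C(K, ℝ)) (ha : ∀ x, IsAff (ρ x)) (h1 : ρ g = 1)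
    (H S : AddSubgroup G₀) (hcp : IsCompl H S) (hg : g ∈ H) (htf : ∀ (n : ℕ) (x : G₀), n ≠ 0 → x ∈ H → n • x = 0 → x = 0)
    (hS : ∀ x ∈ S, ρ x = 0) :
    ∃ (J : Type) (_ : AddCommGroup J), (∀ (G' : Type) [AddCommGroup G'] [Countable G'], OccursSBP g (J × G') K ρ) ∧
      ((∀ x y : H, ∃ a b : ℤ, (a ≠ 0 ∨ b ≠ 0) ∧ a • x = b • y) → ∀ (G' : Type) [AddCommGroup G'] [Countable G'],
        OccursSBP g (ℤ × G') K ρ) := by
  obtain ⟨X, i1, i2, i3, i4, α, hα, hb, A, i5, ι, u, hcr, hI, hr⟩ :=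
    hFK0 E K hK hc hn hs H (ρ.comp H.subtype) ⟨g, hg⟩ (fun x => ha _) h1 (by
      intro n x hn' hx
      have h2 : n • (x : G₀) = 0 := by
        have h3 := congrArg H.subtype hx
        rw [map_nsmul, map_zero] at h3
        exact h3
      exact Subtype.ext (htf n x (by omega) x.2 h2))
  have hO : OccursSBP (⟨g, hg⟩ : H) (K1 A) K (ρ.comp H.subtype) :=
    ⟨X, i1, i2, i3, i4, α, hα, hb, A, i5, ι, u, hcr, hI⟩
  refine ⟨K1 A, inferInstance, ?_, ?_⟩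
  · intro G' _ _
    exact hFAS G₀ g E K ρ H S hcp hg hS (K1 A) G' hO
  · intro hrk G' _ _
    obtain ⟨f⟩ := hr hrk
    refine hFAS G₀ g E K ρ H S hcp hg hS ℤ G' ⟨X, i1, i2, i3, i4, α, hα, hb, A, i5, ι, u, hcr, ?_⟩
    obtain ⟨φ, _, τ, h2, h3, h4, h5⟩ := hI
    exact ⟨φ, f, τ, h2, h3, h4, h5⟩

theorem Fin_occ {G₀ : Type} [AddCommGroup G₀] {g : G₀} {G₁ : Type} [AddCommGroup G₁] {E : Type} [AddCommGroup E]
    [Module ℝ E] [TopologicalSpace E] {K : Set E} {ρ : G₀ →+ C(K, ℝ)} (h : OccursSBP g G₁ K ρ) : Occurs g G₁ K ρ := by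
  obtain ⟨X, j1, j2, j3, j4, α, hα, hb, A, j5, ι, u, hx, hI⟩ := h
  exact ⟨X, j1, j2, j3, j4, α, hα, A, j5, ι, u, hx, hI⟩

theorem Fin_nec (hKNE : KNE_stmt) {G₀ : Type} [AddCommGroup G₀] {g : G₀} {G₁ : Type} [AddCommGroup G₁] {E : Type}
    [AddCommGroup E] [Module ℝ E] [TopologicalSpace E] {K : Set E} {ρ : G₀ →+ C(K, ℝ)} (h : Occurs g G₁ K ρ) :
    RangeCond g G₁ K ρ := by
  obtain ⟨X, i1, i2, i3, i4, α, hα, A, i5, ι, u, hcp, hI⟩ := h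
  exact hKNE X α hα A ι u hcp G₀ g G₁ E K ρ hI

/-- the range of the K₀-part -/
theorem Fin_K0 (hFK0 : FK0_stmt) (hFAS : FAS_stmt) (hKNE : KNE_stmt) (E : Type) [AddCommGroup E] [Module ℝ E]
    [TopologicalSpace E] [IsTopologicalAddGroup E] [ContinuousSMul ℝ E] [LocallyConvexSpace ℝ E] [T2Space E]
    (K : Set E) [TopologicalSpace.MetrizableSpace K] (hK : IsCompact K) (hc : Convex ℝ K) (hn : K.Nonempty) (hs : IsSimplex K)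
    (G₀ : Type) [AddCommGroup G₀] [Countable G₀] (g : G₀) (ρ : G₀ →+ C(K, ℝ)) (ha : ∀ x, IsAff (ρ x)) (h1 : ρ g = 1) :
    ((∃ (G₁ : Type) (_ : AddCommGroup G₁), Occurs g G₁ K ρ) ↔ Cond0 g K ρ) ∧
    ((∃ (G₁ : Type) (_ : AddCommGroup G₁), OccursSBP g G₁ K ρ) ↔ Cond0 g K ρ) ∧
    (Cond0 g K ρ → ∃ (J : Type) (_ : AddCommGroup J), ∀ (G' : Type) [AddCommGroup G'] [Countable G'],
      OccursSBP g (J × G') K ρ) := by
  have hA : (∃ (G₁ : Type) (_ : AddCommGroup G₁), Occurs g G₁ K ρ) → Cond0 g K ρ := by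
    rintro ⟨G₁, _, h⟩
    exact (Fin_nec hKNE h).2
  have hB : Cond0 g K ρ → ∃ (J : Type) (_ : AddCommGroup J), ∀ (G' : Type) [AddCommGroup G'] [Countable G'],
      OccursSBP g (J × G') K ρ := by
    rintro ⟨H, S, hcp, hg, htf, hS⟩
    obtain ⟨J, iJ, h2, _⟩ := Fin_base hFK0 hFAS E K hK hc hn hs G₀ g ρ ha h1 H S hcp hg htf hS
    exact ⟨J, iJ, h2⟩
  have hC : Cond0 g K ρ → ∃ (G₁ : Type) (_ : AddCommGroup G₁), OccursSBP g G₁ K ρ := by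
    intro h
    obtain ⟨J, iJ, h2⟩ := hB h
    exact ⟨J × ℤ, inferInstance, h2 ℤ⟩
  have hD : (∃ (G₁ : Type) (_ : AddCommGroup G₁), OccursSBP g G₁ K ρ) →
      ∃ (G₁ : Type) (_ : AddCommGroup G₁), Occurs g G₁ K ρ := by
    rintro ⟨G₁, iG, h⟩
    exact ⟨G₁, iG, Fin_occ h⟩
  exact ⟨⟨hA, fun h => hD (hC h)⟩, ⟨fun h => hA (hD h), hC⟩, hB⟩

/-- rank one -/
theorem Fin_R1 (hFK0 : FK0_stmt) (hFAS : FAS_stmt) (hKNE : KNE_stmt) (hFRK : FRK_stmt) (E : Type) [AddCommGroup E]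
    [Module ℝ E] [TopologicalSpace E] [IsTopologicalAddGroup E] [ContinuousSMul ℝ E] [LocallyConvexSpace ℝ E] [T2Space E]
    (K : Set E) [TopologicalSpace.MetrizableSpace K] (hK : IsCompact K) (hc : Convex ℝ K) (hn : K.Nonempty) (hs : IsSimplex K)
    (G₀ : Type) [AddCommGroup G₀] [Countable G₀] (g : G₀) (ρ : G₀ →+ C(K, ℝ)) (ha : ∀ x, IsAff (ρ x)) (h1 : ρ g = 1) :
    (∀ H S : AddSubgroup G₀, IsCompl H S → g ∈ H → (∀ (n : ℕ) (x : G₀), n ≠ 0 → x ∈ H → n • x = 0 → x = 0) →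
      (∀ x y : H, ∃ a b : ℤ, (a ≠ 0 ∨ b ≠ 0) ∧ a • x = b • y) → (∀ x ∈ S, ρ x = 0) →
      ∀ (G' : Type) [AddCommGroup G'] [Countable G'], OccursSBP g (ℤ × G') K ρ) ∧
    ((∀ x : G₀, ∃ (n : ℕ) (k : ℤ), n ≠ 0 ∧ n • x = k • g) → ∀ (G₁ : Type) [AddCommGroup G₁] [Countable G₁],
      (Occurs g G₁ K ρ ↔ RangeCond g G₁ K ρ) ∧ (OccursSBP g G₁ K ρ ↔ RangeCond g G₁ K ρ)) := by
  have hP : ∀ H S : AddSubgroup G₀, IsCompl H S → g ∈ H → (∀ (n : ℕ) (x : G₀), n ≠ 0 → x ∈ H → n • x = 0 → x = 0) →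
      (∀ x y : H, ∃ a b : ℤ, (a ≠ 0 ∨ b ≠ 0) ∧ a • x = b • y) → (∀ x ∈ S, ρ x = 0) →
      ∀ (G' : Type) [AddCommGroup G'] [Countable G'], OccursSBP g (ℤ × G') K ρ := by
    intro H S hcp hg htf hrk hS
    obtain ⟨J, iJ, _, h2⟩ := Fin_base hFK0 hFAS E K hK hc hn hs G₀ g ρ ha h1 H S hcp hg htf hS
    exact h2 hrk
  refine ⟨hP, ?_⟩
  intro hr G₁ _ _
  have hB : RangeCond g G₁ K ρ → OccursSBP g G₁ K ρ := by
    rintro ⟨⟨G', i, ⟨f⟩⟩, H, S, hcp, hg, htf, hS⟩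
    have hG : Countable G' := by
      refine Function.Injective.countable (f := fun x : G' => f.symm ((0 : ℤ), x)) ?_
      intro x y hxy
      have h := f.symm.injective hxy
      exact congrArg Prod.snd h
    obtain ⟨X, j1, j2, j3, j4, α, hα, hb, A, j5, ι, u, hx, φ, e, τ, h2, h3, h4, h5⟩ :=
      hP H S hcp hg htf (hFRK G₀ g H htf hr) hS G'
    exact ⟨X, j1, j2, j3, j4, α, hα, hb, A, j5, ι, u, hx, φ, e.trans f.symm, τ, h2, h3, h4, h5⟩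
  exact ⟨⟨fun h => Fin_nec hKNE h, fun h => Fin_occ (hB h)⟩, ⟨fun h => Fin_nec hKNE (Fin_occ h), hB⟩⟩

end Pool.Agent.BND
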