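import Pool.Agent.helper77.BND.SpecY

/-!
# Project bnd (MP_376aaf_an), block B: the block algebras `S m` and their `K₀`. Rows bnd:*

RULES as in SpecD, SpecY. `import Pool.Agent.helper77.BND.SpecB`. Conventions: an element `a` of `S m` is given by a family of matrices `G e s i j` (`i, j < h e`), one for each
letter `(e, s)` of the level `m`: if `x m = emb e s i` then `c n a x = G e s i (i - n)` (0 if `i - n` is not in `[0, h e)`).
-/

set_option autoImplicit false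

open scoped Topology Matrix
open Filter Finset

namespace Pool.Agent.BND

open Pool.Agent.CZ Pool.Agent.PV

/-! ## F. Block diagonal matrices -/

/-- the position of the vertex of a word in which the floor `i` lies -/
def fp (h : ℕ → ℕ) : List ℕ → ℕ → ℕ
  | [], _ => 0
  | a :: u, i => if i < h a then 0 else fp h u (i - h a) + 1

/-- the block diagonal matrix of a word with the blocks `x v`, `v` the vertices of the word -/
def bd (h : ℕ → ℕ) (u : List ℕ) (x : ℕ → ℕ → ℕ → ℂ) (i j : ℕ) : ℂ :=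
  if fp h u i = fp h u j then x (fl h u i).1 (fl h u i).2 (fl h u j).2 else 0

/-- ROW bnd:BDM (medium; from FLV). Induction on `u` (`u = a :: u'`: the floors `< h a` form the first block; for `h a ≤ i` everything is shifted by `h a`): products, trace, unit; and: if the floors `i`, `j` are in the same vertex then `i - j` is the difference of the floors in it, and the floors of the vertex of `i` are all there. -/
def BDM_stmt : Prop := ∀ (h : ℕ → ℕ) (u : List ℕ),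
  (∀ (κ : Type) [Fintype κ] (x y : κ → ℕ → ℕ → ℕ → ℂ) (i j : ℕ), i < (u.map h).sum → j < (u.map h).sum →
    ∑ b : κ, ∑ k ∈ range (u.map h).sum, bd h u (x b) i k * bd h u (y b) k j =
      bd h u (fun v p q => ∑ b : κ, ∑ k ∈ range (h v), x b v p k * y b v k q) i j) ∧
  (∀ x : ℕ → ℕ → ℕ → ℂ, ∑ i ∈ range (u.map h).sum, bd h u x i i = (u.map fun v => ∑ i ∈ range (h v), x v i i).sum) ∧
  (∀ i j, i < (u.map h).sum → j < (u.map h).sum → bd h u (fun _ p q => if p = q then 1 else 0) i j = if i = j then 1 else 0) ∧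
  (∀ i j, i < (u.map h).sum → j < (u.map h).sum → fp h u i = fp h u j → (fl h u i).1 = (fl h u j).1 ∧
    (i : ℤ) - j = ((fl h u i).2 : ℤ) - (fl h u j).2) ∧
  ∀ i (q : ℕ), i < (u.map h).sum → q < h (fl h u i).1 →
    i - (fl h u i).2 + q < (u.map h).sum ∧ fp h u (i - (fl h u i).2 + q) = fp h u i ∧ fl h u (i - (fl h u i).2 + q) = ((fl h u i).1, q)

/-- a family of matrices: continuous on the bands, block diagonal at the ends -/
structure IsFm (l : Lv) (G : ℕ → ℝ → ℕ → ℕ → ℂ) : Prop where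
  cont : ∀ e i j, e < l.N → i < l.h e → j < l.h e → ContinuousOn (fun s => G e s i j) U
  vtx : ∀ e s i j, e < l.n → s ∈ U → i < l.h e → j < l.h e → G e s i j = G e 0 i j
  ends : ∀ e i j (b : Bool), e < l.N → i < l.h e → j < l.h e →
    G e (if b then 1 else 0) i j = bd l.h (l.W e b) (fun v => G v 0) i j

/-! ## S. The algebras -/

/-- the crossed product of the system -/
structure CPr (B : BS) (M : ℕ → ℕ → ℕ → ℕ) [CompactSpace ↥(XS B)] (α : ↥(XS B) ≃ₜ ↥(XS B)) {A : Type} [CStarAlgebra A]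
    (ι : C(↥(XS B), ℂ) →⋆ₐ[ℂ] A) (u : unitary A) (c : ℤ → A →ₗ[ℂ] C(↥(XS B), ℂ)) : Prop where
  bs : IsBS B M
  al : IsAl B α
  ali : IsAlI B α
  cov : Cov α ι u c

/-- `a ∈ S m` -/
structure InS (B : BS) [CompactSpace ↥(XS B)] {A : Type} [CStarAlgebra A] (ι : C(↥(XS B), ℂ) →⋆ₐ[ℂ] A) (u : unitary A)
    (c : ℤ → A →ₗ[ℂ] C(↥(XS B), ℂ)) (m : ℕ) (a : A) : Prop where
  lev : ∀ (n : ℤ) (x y : ↥(XS B)), x.1 m = y.1 m → c n a x = c n a y
  van : ∀ (n : ℤ) (x : ↥(XS B)) (e : ℕ) (s : ℝ) (i : ℕ), e < (B.L m).N → s ∈ U → i < (B.L m).h e → x.1 m = emb (B.L m) e s i →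
    ¬ (0 ≤ (i : ℤ) - n ∧ (i : ℤ) - n < (B.L m).h e) → c n a x = 0
  sum : ∀ H : ℕ, (∀ e, e < (B.L m).N → (B.L m).h e ≤ H) → a = ∑ n ∈ Icc (-(H : ℤ)) H, ι (c n a) * up u n

/-- the matrices `G e s` are those of `a` -/
def Fam (B : BS) [CompactSpace ↥(XS B)] {A : Type} [CStarAlgebra A] (c : ℤ → A →ₗ[ℂ] C(↥(XS B), ℂ)) (m : ℕ) (a : A)
    (G : ℕ → ℝ → ℕ → ℕ → ℂ) : Prop :=
  ∀ (x : ↥(XS B)) (e : ℕ) (s : ℝ) (i : ℕ), e < (B.L m).N → s ∈ U → i < (B.L m).h e → x.1 m = emb (B.L m) e s i →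
    ∀ n : ℤ, c n a x = if 0 ≤ (i : ℤ) - n ∧ (i : ℤ) - n < (B.L m).h e then G e s i ((i : ℤ) - n).toNat else 0

/-- ROW bnd:SUZ (short; from SUC). Induction on `|n|` with SUC (successor for `n < 0`, predecessor for `n > 0`). -/
def SUZ_stmt : Prop := ∀ (B : BS) (M : ℕ → ℕ → ℕ → ℕ), IsBS B M → ∀ α : ↥(XS B) ≃ₜ ↥(XS B), IsAl B α → IsAlI B α →
  ∀ (x : ↥(XS B)) (m e : ℕ) (s : ℝ) (i : ℕ), Can (B.L m) e s → i < (B.L m).h e → x.1 m = emb (B.L m) e s i →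
  ∀ n : ℤ, 0 ≤ (i : ℤ) - n → (i : ℤ) - n < (B.L m).h e → ((α ^ (-n)) x).1 m = emb (B.L m) e s ((i : ℤ) - n).toNat

/-- ROW bnd:BFX (medium; from LFT, BDM, FLV, EME). Existence. For every `n` let `g e s i = G e s i (i - n)` if `0 ≤ i - n < h e`, and `0` otherwise. LFT: `F_n` (ends: let `(v, j) = fl (W e b) i`; if `i - n` is a floor of the same vertex (BDM 4, 5) both sides are `G v 0 j (j - n)`; otherwise the left side is 0 (block diagonal) and `j - n` is not in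
`[0, h v)`). `f_n x = F_n (x m)` is continuous on `XS B`, `f_n = 0` for `|n| ≥` all heights. `a = ∑_(|n| ≤ H₀) ι (f_n) u^n`, `H₀ = ∑ heights`; `c n a = f_n` (`cval`). -/
def BFX_stmt : Prop := ∀ (B : BS) (M : ℕ → ℕ → ℕ → ℕ) [CompactSpace ↥(XS B)] (α : ↥(XS B) ≃ₜ ↥(XS B)) (A : Type) [CStarAlgebra A]
  (ι : C(↥(XS B), ℂ) →⋆ₐ[ℂ] A) (u : unitary A) (c : ℤ → A →ₗ[ℂ] C(↥(XS B), ℂ)), CPr B M α ι u c → ∀ (m : ℕ) (G : ℕ → ℝ → ℕ → ℕ → ℂ),
  IsFm (B.L m) G → ∃ a, InS B ι u c m a ∧ Fam B c m a G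

/-- ROW bnd:BFG (medium; from XSU, PMA, EME, BDM, FLV, EMC). The family of `a ∈ S m`: choose for every point of `FS (L m)` a point of `XS B` over it (XSU); `G e s i j = c (i - j) a x`, `x m = emb e s i` (independent of `x`: `lev`). `Fam`: `van`. Continuity in `s`: the function `f = c n a` on the compact space `XS B` is constant on the fibres of the
continuous surjection `x ↦ x m` to the Hausdorff space `FS (L m)`, so it is a continuous function of `x m` (quotient map), and `s ↦ emb e s i` is continuous. Vertices: EME 2. Ends: `x m = emb e b i = emb v 0 p`, `(v, p) = fl (W e b) i` (EME 1); by `van` for the letter `v`, `c (i - j) a x = 0` unless `0 ≤ p - (i - j) < h v`, i.e. unless `j` is a floor of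
the same vertex (BDM 4, 5), and then it is `G v 0 p (p - (i - j))`. -/
def BFG_stmt : Prop := ∀ (B : BS) (M : ℕ → ℕ → ℕ → ℕ) [CompactSpace ↥(XS B)] (α : ↥(XS B) ≃ₜ ↥(XS B)) (A : Type) [CStarAlgebra A]
  (ι : C(↥(XS B), ℂ) →⋆ₐ[ℂ] A) (u : unitary A) (c : ℤ → A →ₗ[ℂ] C(↥(XS B), ℂ)), CPr B M α ι u c → ∀ (m : ℕ) (a : A),
  InS B ι u c m a → ∃ G, IsFm (B.L m) G ∧ Fam B c m a G

/-- ROW bnd:BFE (short; from XSU). Two elements with the same family have the same coefficients (every `x m` is some `emb e s i`), so they are equal (`sum`); conversely the coefficients determine the family: every `(e, s, i)` is some `x m` (XSU), `n = i - j`. -/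
def BFE_stmt : Prop := ∀ (B : BS) (M : ℕ → ℕ → ℕ → ℕ) [CompactSpace ↥(XS B)] (α : ↥(XS B) ≃ₜ ↥(XS B)) (A : Type) [CStarAlgebra A]
  (ι : C(↥(XS B), ℂ) →⋆ₐ[ℂ] A) (u : unitary A) (c : ℤ → A →ₗ[ℂ] C(↥(XS B), ℂ)), CPr B M α ι u c → ∀ (m : ℕ) (a b : A) (G G' : ℕ → ℝ → ℕ → ℕ → ℂ),
  InS B ι u c m a → InS B ι u c m b → Fam B c m a G → Fam B c m b G' →
  (a = b ↔ ∀ e s i j, e < (B.L m).N → s ∈ U → i < (B.L m).h e → j < (B.L m).h e → G e s i j = G' e s i j)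

/-- ROW bnd:BFA (short-medium). Sums, multiples, unit (`1 = ι 1 u^0`, `c n 1 = 1` for `n = 0` and 0 otherwise), also of families. -/
def BFA_stmt : Prop := ∀ (B : BS) (M : ℕ → ℕ → ℕ → ℕ) [CompactSpace ↥(XS B)] (α : ↥(XS B) ≃ₜ ↥(XS B)) (A : Type) [CStarAlgebra A]
  (ι : C(↥(XS B), ℂ) →⋆ₐ[ℂ] A) (u : unitary A) (c : ℤ → A →ₗ[ℂ] C(↥(XS B), ℂ)), CPr B M α ι u c → ∀ (m : ℕ),
  (InS B ι u c m 1 ∧ Fam B c m 1 fun _ _ i j => if i = j then 1 else 0) ∧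
  (∀ a b G G', InS B ι u c m a → InS B ι u c m b → Fam B c m a G → Fam B c m b G' →
    InS B ι u c m (a + b) ∧ Fam B c m (a + b) fun e s i j => G e s i j + G' e s i j) ∧
  ∀ (z : ℂ) a G, InS B ι u c m a → Fam B c m a G → InS B ι u c m (z • a) ∧ Fam B c m (z • a) fun e s i j => z * G e s i j

/-- ROW bnd:BFM (medium; from SUZ, EME, BFG, BDM, XSU, SMA, SMM). Products. `a`, `b` are finite sums, so smooth (SMA), and SMM: `c n (a b) x = ∑_k c k a x * c (n - k) b (α^(-k) x)` (a finite sum). Let `x m = emb e s i`, `(e, s)` canonical: `c k a x ≠ 0` only for `0 ≤ i - k < h e`, and then `(α^(-k) x) m = emb e s (i - k)` (SUZ), so with `p = i - k` the sum is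
`∑_(p < h e) G e s i p * (G' e s p (i - n) or 0)`. For a letter which is not canonical (`n ≤ e`, `s = 0, 1`, EME): replace by the vertex and use that `G`, `G'` may be assumed `IsFm` (BFG, BFE-type uniqueness) and BDM 1. `lev`, `van` follow, and `sum` because both sides have the same coefficients and `a b` is a finite sum of terms `ι (f) u^n`. -/
def BFM_stmt : Prop := ∀ (B : BS) (M : ℕ → ℕ → ℕ → ℕ) [CompactSpace ↥(XS B)] (α : ↥(XS B) ≃ₜ ↥(XS B)) (A : Type) [CStarAlgebra A]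
  (ι : C(↥(XS B), ℂ) →⋆ₐ[ℂ] A) (u : unitary A) (c : ℤ → A →ₗ[ℂ] C(↥(XS B), ℂ)), CPr B M α ι u c → ∀ (m : ℕ),
  ∀ a b G G', InS B ι u c m a → InS B ι u c m b → IsFm (B.L m) G → IsFm (B.L m) G' → Fam B c m a G → Fam B c m b G' →
    InS B ι u c m (a * b) ∧ Fam B c m (a * b) fun e s i j => ∑ k ∈ range ((B.L m).h e), G e s i k * G' e s k j

/-- ROW bnd:BMO (short-medium; from STN). `InS m a → InS (m + 1) a`. `lev`: `x (m + 1) = y (m + 1)` gives `x m = y m`. `van`: `x (m + 1) = emb e' s' i'`, `x m = st m e' s' i' = emb a j`, `i' = i₀ + j` (STN); if `c n a x ≠ 0` then `0 ≤ j - n < h a`, so `0 ≤ i' - n < i₀ + h a ≤ h' e'`. `sum`: a bound `H` for the heights of the level `m + 1` is one for those of the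
level `m`: the letter `(e, t')` occurs in the word of a letter of the level `m + 1` (`dns`, `htw`). -/
def BMO_stmt : Prop := ∀ (B : BS) (M : ℕ → ℕ → ℕ → ℕ) [CompactSpace ↥(XS B)] (α : ↥(XS B) ≃ₜ ↥(XS B)) (A : Type) [CStarAlgebra A]
  (ι : C(↥(XS B), ℂ) →⋆ₐ[ℂ] A) (u : unitary A) (c : ℤ → A →ₗ[ℂ] C(↥(XS B), ℂ)), CPr B M α ι u c → ∀ (m : ℕ) (a : A),
  InS B ι u c m a → InS B ι u c (m + 1) a

/-- ROW bnd:BCL (short-medium). The three conditions of `InS` are closed: `a ↦ c n a x` is continuous (`cnorm`: `|c n a x - c n b x| ≤ ‖a - b‖`), and so is `a ↦ ∑ ι (c n a) u^n`. -/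
def BCL_stmt : Prop := ∀ (B : BS) (M : ℕ → ℕ → ℕ → ℕ) [CompactSpace ↥(XS B)] (α : ↥(XS B) ≃ₜ ↥(XS B)) (A : Type) [CStarAlgebra A]
  (ι : C(↥(XS B), ℂ) →⋆ₐ[ℂ] A) (u : unitary A) (c : ℤ → A →ₗ[ℂ] C(↥(XS B), ℂ)), CPr B M α ι u c → ∀ (m : ℕ), IsClosed {a : A | InS B ι u c m a}

/-- the algebras `S m` -/
structure IsSB (B : BS) [CompactSpace ↥(XS B)] {A : Type} [CStarAlgebra A] (ι : C(↥(XS B), ℂ) →⋆ₐ[ℂ] A) (u : unitary A)
    (c : ℤ → A →ₗ[ℂ] C(↥(XS B), ℂ)) (S : ℕ → Subalgebra ℂ A) : Prop where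
  mem : ∀ m a, a ∈ S m ↔ InS B ι u c m a
  mono : Monotone S
  closed : ∀ m, IsClosed (S m : Set A)

/-- ROW bnd:BSA (short; from BFG, BFA, BFM, BMO, BCL). Subalgebras: `algebraMap z = z • 1`. -/
def BSA_stmt : Prop := ∀ (B : BS) (M : ℕ → ℕ → ℕ → ℕ) [CompactSpace ↥(XS B)] (α : ↥(XS B) ≃ₜ ↥(XS B)) (A : Type) [CStarAlgebra A]
  (ι : C(↥(XS B), ℂ) →⋆ₐ[ℂ] A) (u : unitary A) (c : ℤ → A →ₗ[ℂ] C(↥(XS B), ℂ)), CPr B M α ι u c → ∃ S : ℕ → Subalgebra ℂ A, IsSB B ι u c S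

/-! ## O. The orbit-breaking algebra -/

/-- ROW bnd:BXS (medium; from PMA, STE, HOM). The point `xs`, `xs m = bt (L m)`, is in `XS B`: `p m (bt (L (m + 1))) = st m 0 0 0 = bt (L m)` (STE), and `p m` gives the value for every representation (PMA). `(α⁻¹ xs) 1 = tp (L 1) ≠ bt (L 1)` (`big`: `h 0 ≥ 2`; `emb` of different floors of a vertex are different `Pi.single`). If `x m = emb e s 0` then
`x k = bt (L k)` for all `k < m` (STE, downward induction), so `x` is close to `xs` for large `m`, uniformly; `f` is continuous at `xs`. -/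
def BXS_stmt : Prop := ∀ (B : BS) (M : ℕ → ℕ → ℕ → ℕ) [CompactSpace ↥(XS B)] (α : ↥(XS B) ≃ₜ ↥(XS B)), IsBS B M → IsAl B α → IsAlI B α →
  ∃ xs : ↥(XS B), (∀ m, xs.1 m = bt (B.L m)) ∧ xs ≠ α.symm xs ∧ ∀ W ∈ 𝓝 xs, ∃ m₀, ∀ m, m₀ ≤ m →
    ∀ (x : ↥(XS B)) (e : ℕ) (s : ℝ), e < (B.L m).N → s ∈ U → x.1 m = emb (B.L m) e s 0 → x ∈ W

/-- ROW bnd:BLF (medium; from PMA, XCP). The functions `x ↦ F (x m)`, `F : Am → ℂ` continuous on `FS (L m)`, `m : ℕ`, form a star subalgebra of `C(XS B, ℂ)` (levels can be raised: `x m = p m (x (m + 1))`) which separates the points (coordinates), so it is dense (Stone-Weierstrass). -/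
def BLF_stmt : Prop := ∀ (B : BS) (M : ℕ → ℕ → ℕ → ℕ) [CompactSpace ↥(XS B)], IsBS B M → ∀ (f : C(↥(XS B), ℂ)) (ε : ℝ), 0 < ε →
  ∃ m₀, ∀ m, m₀ ≤ m → ∃ F : Am → ℂ, ContinuousOn F (FS (B.L m)) ∧ ∀ x : ↥(XS B), ‖f x - F (x.1 m)‖ ≤ ε

/-- ROW bnd:BOB (medium; from BXS, BLF, BFX, BFE, BDM, EME, SUC, BLK). `AY` = the closure of `⋃ S m`. Let `F` be continuous on `FS (L m)`. (1) The family `G e s i j = [i = j] F (emb e s i)` (BFX; ends: EME 1, BDM) gives `a ∈ S m` with `c 0 a x = F (x m)`, other coefficients 0, so `a = ι (F (x m))`. With BLF: `ι f ∈ AY`. (2) Let `F` vanish on all `emb e s 0`. The family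
`G e s i j = [i = j + 1] F (emb e s i)` (ends: if `i = j + 1` are in different vertices then `i` is the bottom of its vertex, so the value is 0) gives `ι (F (x m)) u ∈ S m`. (3) `G e s i j = [j = i + 1] F (emb e s j)`: `c (-1) a x = F ((α x) m)` (SUC; at a top floor `(α x) m` is a floor 0, `F = 0`): `a = ι (F ((α x) m)) u⁻¹ = u⁻¹ ι (F (x m))`.
(4) Let `f = 0` near `xs`, `ε > 0`. By BXS, BLF for large `m`: `f x = 0` for all `x` with `x m = emb e s 0`, and `F` with `|f - F| ≤ ε`; so `|F| ≤ ε` on the points `emb e s 0`. Replace `F` by `τ (F)`, `τ z = z * max 0 (1 - ε / |z|)` (`τ 0 = 0`, continuous, `|τ z - z| ≤ ε`, `τ z = 0` for `|z| ≤ ε`): it vanishes there and `|f - τ F| ≤ 2 ε`. -/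
def BOB_stmt : Prop := ∀ (B : BS) (M : ℕ → ℕ → ℕ → ℕ) [CompactSpace ↥(XS B)] (α : ↥(XS B) ≃ₜ ↥(XS B)) (A : Type) [CStarAlgebra A]
  (ι : C(↥(XS B), ℂ) →⋆ₐ[ℂ] A) (u : unitary A) (c : ℤ → A →ₗ[ℂ] C(↥(XS B), ℂ)), CPr B M α ι u c → ∀ S : ℕ → Subalgebra ℂ A, IsSB B ι u c S →
  ∀ xs : ↥(XS B), (∀ m, xs.1 m = bt (B.L m)) → ∃ AY : Subalgebra ℂ A, (AY : Set A) = closure (⋃ m, (S m : Set A)) ∧ OBA ι u xs AY

/-- ROW bnd:BSJ (medium; from YSU, BXS, BOB, CS0, FUN). `K₀(A)` is the union of the images of the `K₀(S m)`. YSU: `z = val_* w`, `w ∈ K₀(AY)`. CS0 for the Banach algebra `AY` (closed, so complete), `I = ℕ`, `S F = (S (F.sup id)).comap AY.val` (increasing, closed, dense union): `w` comes from some `(S m).comap AY.val`, which maps to `S m`; FUN. -/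
def BSJ_stmt : Prop := ∀ (B : BS) (M : ℕ → ℕ → ℕ → ℕ) [CompactSpace ↥(XS B)] (α : ↥(XS B) ≃ₜ ↥(XS B)) (A : Type) [CStarAlgebra A]
  (ι : C(↥(XS B), ℂ) →⋆ₐ[ℂ] A) (u : unitary A) (c : ℤ → A →ₗ[ℂ] C(↥(XS B), ℂ)), CPr B M α ι u c → ∀ S : ℕ → Subalgebra ℂ A, IsSB B ι u c S →
  ∀ z : K0 A, ∃ (m : ℕ) (w : K0 (S m)), z = k0map (S m).val.toRingHom w

/-! ## R. Ranks -/

/-- `R : K₀(S m) → ℤ^ℕ` is the rank at the vertices -/
def IsRk (B : BS) [CompactSpace ↥(XS B)] {A : Type} [CStarAlgebra A] (c : ℤ → A →ₗ[ℂ] C(↥(XS B), ℂ)) (S : ℕ → Subalgebra ℂ A) (m : ℕ)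
    (R : K0 (S m) →+ (ℕ → ℤ)) : Prop :=
  (∀ (κ : Type) [Fintype κ] (E : Matrix κ κ (S m)) (hE : E * E = E) (G : κ → κ → ℕ → ℝ → ℕ → ℕ → ℂ), (∀ a b, Fam B c m (E a b : A) (G a b)) →
    ∀ e s, e < (B.L m).N → s ∈ U → ∑ a : κ, ∑ i ∈ range ((B.L m).h e), G a a e s i i = ((((B.L m).W e false).map (R (k0 E hE))).sum : ℤ)) ∧
  (∀ w v, (B.L m).n ≤ v → R w v = 0) ∧
  ∀ w e, e < (B.L m).N → (((B.L m).W e false).map (R w)).sum = (((B.L m).W e true).map (R w)).sum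

/-- ROW bnd:BEV (short-medium; from BFG, BFE, BFA, BFM). Evaluation at the letter `(e, s)`: a ring homomorphism. -/
def BEV_stmt : Prop := ∀ (B : BS) (M : ℕ → ℕ → ℕ → ℕ) [CompactSpace ↥(XS B)] (α : ↥(XS B) ≃ₜ ↥(XS B)) (A : Type) [CStarAlgebra A]
  (ι : C(↥(XS B), ℂ) →⋆ₐ[ℂ] A) (u : unitary A) (c : ℤ → A →ₗ[ℂ] C(↥(XS B), ℂ)), CPr B M α ι u c → ∀ S : ℕ → Subalgebra ℂ A, IsSB B ι u c S →
  ∀ (m e : ℕ) (s : ℝ), e < (B.L m).N → s ∈ U → ∃ π : S m →+* Matrix (Fin ((B.L m).h e)) (Fin ((B.L m).h e)) ℂ,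
    ∀ (a : S m) (G : ℕ → ℝ → ℕ → ℕ → ℂ), Fam B c m (a : A) G → ∀ i j, π a i j = G e s i j

/-- ROW bnd:BTZ (medium; from BEV, BFG, BDM, TRI). The matrix `(G a b e s i j)` over `κ × Fin (h e)` is idempotent (BEV), its trace is a natural number (TRI) and depends continuously on `s ∈ U` (use families with `IsFm`: BFG, and the values of `G` are determined, BEV), so it does not depend on `s` (`U` is connected, `ℤ` discrete). At the ends it is the sum over the vertices of `W e b` of the traces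
`z v` at the vertices (BDM 2). -/
def BTZ_stmt : Prop := ∀ (B : BS) (M : ℕ → ℕ → ℕ → ℕ) [CompactSpace ↥(XS B)] (α : ↥(XS B) ≃ₜ ↥(XS B)) (A : Type) [CStarAlgebra A]
  (ι : C(↥(XS B), ℂ) →⋆ₐ[ℂ] A) (u : unitary A) (c : ℤ → A →ₗ[ℂ] C(↥(XS B), ℂ)), CPr B M α ι u c → ∀ S : ℕ → Subalgebra ℂ A, IsSB B ι u c S →
  ∀ (m : ℕ) (κ : Type) [Fintype κ] (E : Matrix κ κ (S m)), E * E = E → ∀ G : κ → κ → ℕ → ℝ → ℕ → ℕ → ℂ, (∀ a b, Fam B c m (E a b : A) (G a b)) →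
  ∃ z : ℕ → ℤ, ∀ e s (b : Bool), e < (B.L m).N → s ∈ U →
    ∑ a : κ, ∑ i ∈ range ((B.L m).h e), G a a e s i i = ((((B.L m).W e b).map z).sum : ℤ)

/-- ROW bnd:BRH (medium; from BTZ, BEV, BFG, K0G). The homomorphism `R` (`QuotientAddGroup.lift`, `FreeAbelianGroup.lift`): `R [E] v = z v` for `v < n` (the trace at the vertex, `W v b = [v]`), 0 for `n ≤ v`. Relations: the trace of `x y` is that of `y x` (BEV entrywise, `Matrix.trace_mul_comm`), additivity. The first condition of IsRk is BTZ (`W e false` consists of vertices `< n`),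
the third one: true on the classes (BTZ for `b = false, true`), additive. -/
def BRH_stmt : Prop := ∀ (B : BS) (M : ℕ → ℕ → ℕ → ℕ) [CompactSpace ↥(XS B)] (α : ↥(XS B) ≃ₜ ↥(XS B)) (A : Type) [CStarAlgebra A]
  (ι : C(↥(XS B), ℂ) →⋆ₐ[ℂ] A) (u : unitary A) (c : ℤ → A →ₗ[ℂ] C(↥(XS B), ℂ)), CPr B M α ι u c → ∀ S : ℕ → Subalgebra ℂ A, IsSB B ι u c S →
  ∀ m : ℕ, ∃ R : K0 (S m) →+ (ℕ → ℤ), IsRk B c S m R

/-- ROW bnd:BEX (medium; from PTH, TRI, GLC). Interpolation of equivalences. PTH in `Matrix ι ι ℂ`, `Matrix κ κ ℂ` (linftyOp): `E s = W s E 0 W' s`, `F s = Z s F 0 Z' s`. `F 0 = a b`, `b a = 1_r` (TRI; `a` replaced by `F 0 a`, `b` by `b F 0`). `g₁ = y₀ W'(1) x₁ Z(1)` is in `F 0 M F 0`, invertible there (inverse `Z'(1) y₁ W(1) x₀`),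
so `b g₁ a ∈ GL_r(ℂ)` is joined to 1 by `γ`; `g s = a γ(s) b`, `g 0 = F 0`, `g 1 = g₁`. `X s = W s x₀ (g s) Z' s`, `Y s = Z s (g s)⁻ y₀ W' s`, `(g s)⁻ = a γ(s)⁻¹ b`. -/
def BEX_stmt : Prop := ∀ (ι κ : Type) [Fintype ι] [DecidableEq ι] [Fintype κ] [DecidableEq κ] (E : C(unitInterval, Matrix ι ι ℂ)) (F : C(unitInterval, Matrix κ κ ℂ)),
  (∀ s, E s * E s = E s) → (∀ s, F s * F s = F s) → ∀ (x₀ x₁ : Matrix ι κ ℂ) (y₀ y₁ : Matrix κ ι ℂ), x₀ * y₀ = E 0 → y₀ * x₀ = F 0 → x₁ * y₁ = E 1 → y₁ * x₁ = F 1 →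
  E 0 * x₀ = x₀ → F 0 * y₀ = y₀ → E 1 * x₁ = x₁ → F 1 * y₁ = y₁ →
  ∃ (X : C(unitInterval, Matrix ι κ ℂ)) (Y : C(unitInterval, Matrix κ ι ℂ)), X 0 = x₀ ∧ X 1 = x₁ ∧ Y 0 = y₀ ∧ Y 1 = y₁ ∧ ∀ s, X s * Y s = E s ∧ Y s * X s = F s

/-- ROW bnd:BIX (short-medium; from TRI, GLC). Interpolation of idempotents. Equal traces: equal ranks of `E₀`, `E₁` and of `1 - E₀`, `1 - E₁` (TRI), so `E₁ = g E₀ g⁻¹` (`g = a₁ b₀ + a₁' b₀'` with `E_i = a_i b_i`, `1 - E_i = a_i' b_i'`); a path from 1 to `g` (GLC). -/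
def BIX_stmt : Prop := ∀ (ι : Type) [Fintype ι] [DecidableEq ι] (E₀ E₁ : Matrix ι ι ℂ), E₀ * E₀ = E₀ → E₁ * E₁ = E₁ → E₀.trace = E₁.trace →
  ∃ E : C(unitInterval, Matrix ι ι ℂ), E 0 = E₀ ∧ E 1 = E₁ ∧ ∀ s, E s * E s = E s

/-- ROW bnd:BEQ (medium to long; from BEX, TRI, BDM, BFX, BFG, BFE, BFA, BFM, BEV). Equal ranks give equivalent idempotents. Choose families `GE a b`, `GF a b` with IsFm (BFG). For a vertex `v` the matrices `E_v` over `κ × Fin (h v)`, `F_v` over `μ × Fin (h v)` are idempotent with equal traces: `E_v = x_v y_v`, `F_v = y_v x_v`, normalised (TRI for both, same `r`). For a band `e`: at the end `b` take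
the block diagonal matrices `bd (W e b)` of `x_v`, `y_v` (products: BDM 1; `E`, `F` are block diagonal at the ends: `ends`); BEX with `E s`, `F s` (continuous in `s`; extend from `U` by `Set.projIcc`) gives `X_e`, `Y_e`. The families `X a b e s i j` (vertices: `x_v`, bands: `X_e s`) are IsFm; BFX gives the entries of `x`, `y`;
`x y = E`, `y x = F` because the families agree (BFM, BFA: finite sums, BFE). -/
def BEQ_stmt : Prop := ∀ (B : BS) (M : ℕ → ℕ → ℕ → ℕ) [CompactSpace ↥(XS B)] (α : ↥(XS B) ≃ₜ ↥(XS B)) (A : Type) [CStarAlgebra A]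
  (ι : C(↥(XS B), ℂ) →⋆ₐ[ℂ] A) (u : unitary A) (c : ℤ → A →ₗ[ℂ] C(↥(XS B), ℂ)), CPr B M α ι u c → ∀ S : ℕ → Subalgebra ℂ A, IsSB B ι u c S →
  ∀ (m : ℕ) (κ μ : Type) [Fintype κ] [DecidableEq κ] [Fintype μ] [DecidableEq μ] (E : Matrix κ κ (S m)) (F : Matrix μ μ (S m)), E * E = E → F * F = F →
  ∀ (GE : κ → κ → ℕ → ℝ → ℕ → ℕ → ℂ) (GF : μ → μ → ℕ → ℝ → ℕ → ℕ → ℂ), (∀ a b, Fam B c m (E a b : A) (GE a b)) → (∀ a b, Fam B c m (F a b : A) (GF a b)) →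
  (∀ v, v < (B.L m).n → ∑ a : κ, ∑ i ∈ range ((B.L m).h v), GE a a v 0 i i = ∑ a : μ, ∑ i ∈ range ((B.L m).h v), GF a a v 0 i i) →
  ∃ (x : Matrix κ μ (S m)) (y : Matrix μ κ (S m)), x * y = E ∧ y * x = F

/-- ROW bnd:BRI (short-medium; from BEQ, BFG, K0G, K0E, K0B). `R` is injective. `w = [E] - r [1]` (K0G), `r [1] = [1_r]` (K0B); `R w = 0`: `E` and `1_r` have equal ranks at all vertices (`W v false = [v]`), so they are equivalent (BEQ): K0E. -/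
def BRI_stmt : Prop := ∀ (B : BS) (M : ℕ → ℕ → ℕ → ℕ) [CompactSpace ↥(XS B)] (α : ↥(XS B) ≃ₜ ↥(XS B)) (A : Type) [CStarAlgebra A]
  (ι : C(↥(XS B), ℂ) →⋆ₐ[ℂ] A) (u : unitary A) (c : ℤ → A →ₗ[ℂ] C(↥(XS B), ℂ)), CPr B M α ι u c → ∀ S : ℕ → Subalgebra ℂ A, IsSB B ι u c S →
  ∀ (m : ℕ) (R : K0 (S m) →+ (ℕ → ℤ)), IsRk B c S m R → ∀ w, (∀ v, v < (B.L m).n → R w v = 0) → w = 0

/-- ROW bnd:BRS (medium; from BIX, BDM, BFX, BFG, BFE, BFA, BFM). Every `z ≥ 0` with the band condition is a rank function. `r ≥` all `z v`, `v < n`. At a vertex: the diagonal 0-1 matrix over `Fin r × Fin (h v)` with entry 1 at `(a, 0)`, `a < z v`: trace `z v`. At the ends of a band: block diagonal (`bd`), idempotent (BDM 1) with the traces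
`∑_(W e b) z` (BDM 2), equal for both ends; BIX joins them. The families are IsFm, BFX gives `E`; `E E = E` by BFM, BFA, BFE. -/
def BRS_stmt : Prop := ∀ (B : BS) (M : ℕ → ℕ → ℕ → ℕ) [CompactSpace ↥(XS B)] (α : ↥(XS B) ≃ₜ ↥(XS B)) (A : Type) [CStarAlgebra A]
  (ι : C(↥(XS B), ℂ) →⋆ₐ[ℂ] A) (u : unitary A) (c : ℤ → A →ₗ[ℂ] C(↥(XS B), ℂ)), CPr B M α ι u c → ∀ S : ℕ → Subalgebra ℂ A, IsSB B ι u c S →
  ∀ (m : ℕ) (R : K0 (S m) →+ (ℕ → ℤ)), IsRk B c S m R → ∀ z : ℕ → ℤ, (∀ v, 0 ≤ z v) →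
  (∀ e, e < (B.L m).N → (((B.L m).W e false).map z).sum = (((B.L m).W e true).map z).sum) → ∃ w, ∀ v, v < (B.L m).n → R w v = z v

/-- ROW bnd:BRM (medium; from WSM, BFG, BFE, XSU, STN, K0G). The inclusion `S m ⊆ S (m + 1)`. For `w = [E]`: families `G` (level `m`), `G'` (level `m + 1`) of the entries. `G' a a v' 0 i' i' = c 0 (E a a) x`, `x (m + 1) = emb v' 0 i'`, and `x m = st m v' 0 i'`: it is `T (st m v' 0 i')`, `T (emb e s i) = G a a e s i i`. Sum over `i' < h' v' = hw (w m v' 0)`: WSM: the sum over the letters of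
`w m v' 0` of the traces, which are `∑_(W e false) R w` (IsRk), and `cnt`. Linear in `w` (K0G: every `w` is `[E] - r [1]`). -/
def BRM_stmt : Prop := ∀ (B : BS) (M : ℕ → ℕ → ℕ → ℕ) [CompactSpace ↥(XS B)] (α : ↥(XS B) ≃ₜ ↥(XS B)) (A : Type) [CStarAlgebra A]
  (ι : C(↥(XS B), ℂ) →⋆ₐ[ℂ] A) (u : unitary A) (c : ℤ → A →ₗ[ℂ] C(↥(XS B), ℂ)), CPr B M α ι u c → ∀ S : ℕ → Subalgebra ℂ A, IsSB B ι u c S →
  ∀ (m : ℕ) (R : K0 (S m) →+ (ℕ → ℤ)) (R' : K0 (S (m + 1)) →+ (ℕ → ℤ)), IsRk B c S m R → IsRk B c S (m + 1) R' → ∀ (h : S m ≤ S (m + 1)) (w : K0 (S m)) (v' : ℕ),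
  v' < (B.L (m + 1)).n → R' (k0map (Subalgebra.inclusion h).toRingHom w) v' = ∑ v ∈ range (B.L m).n, (M m v' v : ℤ) * R w v

/-! ## K. The group `K₀(A)` -/

/-- the image of `z` (level `m`) on the level `m + d` -/
def MZ (B : BS) (M : ℕ → ℕ → ℕ → ℕ) (m : ℕ) (z : ℕ → ℤ) : ℕ → ℕ → ℤ
  | 0 => z
  | d + 1 => fun v' => ∑ v ∈ range (B.L (m + d)).n, (M (m + d) v' v : ℤ) * MZ B M m z d v

/-- ROW bnd:BLS (medium; from WSM, LPX, PMA, FLM). Sums over the letters of higher levels. `T : Am → ℂ` continuous on `FS (L m)` with `∑_(i < h e) T (emb e s i) = ∑_(W e false) z = ∑_(W e true) z` for all letters `(e, s)` of the level `m`. Then the same holds on the level `m + d` for `T (lp m d e s i)` and `MZ d z`. Induction on `d`: `∑_i T (lp m (d + 1) e s i)` is the sum over the letters of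
`w (m + d) e s` of the sums of the level `m + d` (WSM, `htw`), an integer. For a vertex: `cnt`. For a band it is continuous in `s ∈ U` (`lp m (d + 1) e s i = (p m ∘ ... ∘ p (m + d - 1)) (st (m + d) e s i)` for the maps `p` of PMA, continuous by `cont`), so constant; at the ends (`ends`, FLM) it is the sum over `W e b` of the values at the vertices. -/
def BLS_stmt : Prop := ∀ (B : BS) (M : ℕ → ℕ → ℕ → ℕ), IsBS B M → ∀ (m : ℕ) (T : Am → ℂ) (z : ℕ → ℤ), ContinuousOn T (FS (B.L m)) →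
  (∀ e s (b : Bool), e < (B.L m).N → s ∈ U → ∑ i ∈ range ((B.L m).h e), T (emb (B.L m) e s i) = ((((B.L m).W e b).map z).sum : ℤ)) →
  ∀ d e s (b : Bool), e < (B.L (m + d)).N → s ∈ U →
    ∑ i ∈ range ((B.L (m + d)).h e), T (B.lp m d e s i) = ((((B.L (m + d)).W e b).map (MZ B M m z d)).sum : ℤ)

/-- ROW bnd:BTF (medium; from BFG, BTZ, XSU, LFT, BDM, K0G). The trace function of `w ∈ K₀(S m)`: `w = [E] - r [1]`; `T (emb e s i) = ∑_a G a a e s i i - r`, continuous on `FS (L m)` (LFT; ends: IsFm), `T (x m) = ∑_a c 0 (E a a) x - r`. The sums over the letters: BTZ / IsRk (`r h e` for the second part: `R [1] v = h v`). -/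
def BTF_stmt : Prop := ∀ (B : BS) (M : ℕ → ℕ → ℕ → ℕ) [CompactSpace ↥(XS B)] (α : ↥(XS B) ≃ₜ ↥(XS B)) (A : Type) [CStarAlgebra A]
  (ι : C(↥(XS B), ℂ) →⋆ₐ[ℂ] A) (u : unitary A) (c : ℤ → A →ₗ[ℂ] C(↥(XS B), ℂ)), CPr B M α ι u c → ∀ S : ℕ → Subalgebra ℂ A, IsSB B ι u c S →
  ∀ (m : ℕ) (R : K0 (S m) →+ (ℕ → ℤ)), IsRk B c S m R → ∀ w : K0 (S m), ∃ (r r' : ℕ) (E : Matrix (Fin r) (Fin r) (S m)) (hE : E * E = E) (T : Am → ℂ),
    w = k0 E hE - r' • unitCls (S m) ∧ ContinuousOn T (FS (B.L m)) ∧ (∀ x : ↥(XS B), T (x.1 m) = ∑ a, c 0 (E a a : A) x - r') ∧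
    ∀ e s (b : Bool), e < (B.L m).N → s ∈ U → ∑ i ∈ range ((B.L m).h e), T (emb (B.L m) e s i) = ((((B.L m).W e b).map (R w)).sum : ℤ)

/-- ROW bnd:BIJ (medium; from BTF, BLS, BXS, SUC, SUZ, LPX, XSU, DMP, SMA). If `w` dies in `K₀(A)` then `MZ d (R w) = 0` on the vertices for some `d`. BTF: `E`, `T`. The entries of `E` are smooth (finite sums, SMA), DMP of cz: `0 = D (val_* w)` is the class of `x ↦ T (x m)`, so `T (x m) = g (α x) - g x`, `g ∈ C(XS B, ℂ)`. For a vertex `v'` of the level `m + d` take `x` with `x (m + d) = emb v' 0 0` (XSU);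
`(α^j x) (m + d) = emb v' 0 j` for `j < h v'` (SUZ), `(α^j x) m = lp m d v' 0 j` (LPX). BLS: `MZ d (R w) v' = ∑_(j < h v') T ((α^j x) m) = g (α^(h v') x) - g x`. Both points are at a floor 0 of the level `m + d` (SUC), so for large `d` (BXS) the difference has absolute value `< 1`: the integer is 0. -/
def BIJ_stmt : Prop := ∀ (B : BS) (M : ℕ → ℕ → ℕ → ℕ) [CompactSpace ↥(XS B)] (α : ↥(XS B) ≃ₜ ↥(XS B)) (A : Type) [CStarAlgebra A]
  (ι : C(↥(XS B), ℂ) →⋆ₐ[ℂ] A) (u : unitary A) (c : ℤ → A →ₗ[ℂ] C(↥(XS B), ℂ)), CPr B M α ι u c → ∀ S : ℕ → Subalgebra ℂ A, IsSB B ι u c S →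
  ∀ (m : ℕ) (R : K0 (S m) →+ (ℕ → ℤ)), IsRk B c S m R → ∀ w : K0 (S m), k0map (S m).val.toRingHom w = 0 →
  ∃ d, ∀ v, v < (B.L (m + d)).n → MZ B M m (R w) d v = 0

/-- ROW bnd:BTH (short-medium). `∑_v (MZ d z) v • th (m + d) v = ∑_v z v • th m v`: induction on `d` with `th_eq` (exchange the sums). -/
def BTH_stmt : Prop := ∀ (H : Type) [AddCommGroup H] (B : BS) (M : ℕ → ℕ → ℕ → ℕ) (P : H → Prop) (g : H) (th : ℕ → ℕ → H) (H' : AddSubgroup H),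
  IsTh B M P g th H' → ∀ (m : ℕ) (z : ℕ → ℤ) (d : ℕ), ∑ v ∈ range (B.L (m + d)).n, MZ B M m z d v • th (m + d) v = ∑ v ∈ range (B.L m).n, z v • th m v

/-- ROW bnd:BCO (short-medium). Colimits, pure algebra. `φ z = b m w` for any `m, w` with `z = a m w`: well defined: raise two representatives to a common level (`i` iterated, commutes with `a`, `b`), the difference has `a = 0`, so `b = 0`. -/
def BCO_stmt : Prop := ∀ (G : ℕ → Type) [∀ m, AddCommGroup (G m)] (K H : Type) [AddCommGroup K] [AddCommGroup H] (i : ∀ m, G m →+ G (m + 1)) (a : ∀ m, G m →+ K) (b : ∀ m, G m →+ H),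
  (∀ m w, a (m + 1) (i m w) = a m w) → (∀ m w, b (m + 1) (i m w) = b m w) → (∀ m w, a m w = 0 ↔ b m w = 0) → (∀ z, ∃ m w, a m w = z) → (∀ z, ∃ m w, b m w = z) →
  ∃ φ : K ≃+ H, ∀ m w, φ (a m w) = b m w

/-- ROW bnd:BKA (medium; from BSA, BSJ, BRH, BRI, BRS, BRM, BIJ, BTH, BCO, FUN). `K₀(A) = H'`. `b m w = ∑_(v < n) R m w v • th m v ∈ H'` (`bnd`, third condition of IsRk). `b (m + 1) (incl w) = b m w`: BRM and `th_eq`. `a m = (S m).val_*`. If `a m w = 0`: BIJ gives `MZ d (R w) = 0`, so `b m w = 0` (BTH). If `b m w = 0`: `kill` gives `∑_v M v' v R w v = 0`, i.e. `R (m + 1) (incl w) = 0` (BRM),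
`incl w = 0` (BRI), `a m w = 0`. `a` onto: BSJ. `b` onto: `x ∈ H'`; `k` with `P (x + k • g)` (`arch` of SOG), `span`: `x + k • g = ∑ c v • th m v`, it is in `H'`, so `z = c` (0 for `v ≥ n`) satisfies the band condition (`bnd`), `z ≥ 0`: BRS gives `w`, `b m w = x + k • g`; `R [1] v = h v`, `b m [1] = g` (`unit`): `b m (w - k [1]) = x`. BCO. `φ (unitCls A) = g`.
Every `z` is some `a m w` (BSJ). -/
def BKA_stmt : Prop := ∀ (H : Type) [AddCommGroup H] (P : H → Prop) (g : H), PVH.SOG P g → ∀ (B : BS) (M : ℕ → ℕ → ℕ → ℕ) (th : ℕ → ℕ → H) (H' : AddSubgroup H), IsTh B M P g th H' → g ∈ H' →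
  ∀ [CompactSpace ↥(XS B)] (α : ↥(XS B) ≃ₜ ↥(XS B)) (A : Type) [CStarAlgebra A]
  (ι : C(↥(XS B), ℂ) →⋆ₐ[ℂ] A) (u : unitary A) (c : ℤ → A →ₗ[ℂ] C(↥(XS B), ℂ)), CPr B M α ι u c →
  ∃ (S : ℕ → Subalgebra ℂ A) (R : ∀ m, K0 (S m) →+ (ℕ → ℤ)) (φ : K0 A ≃+ H'), IsSB B ι u c S ∧ (∀ m, IsRk B c S m (R m)) ∧ (φ (unitCls A) : H) = g ∧
    (∀ z : K0 A, ∃ (m : ℕ) (w : K0 (S m)), z = k0map (S m).val.toRingHom w) ∧
    ∀ m w, (φ (k0map (S m).val.toRingHom w) : H) = ∑ v ∈ range (B.L m).n, R m w v • th m v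

/-- ROW bnd:BPA (medium; from BTF, BLS, BTH). The pairing. `z = val_* w`, BTF: `E`, `T`. `pair τ z = ∑_a τ (E a a) - r' = φ.cx (x ↦ T (x m))` (`τ a = φ.cx (c 0 a)`). Real part: `f = Re T`, the limit over `d` of `∑_v σ (th (m + d) v) * ∑_(i < h v) Re T (lp m d v 0 i)`; by BLS the inner sum is the integer `MZ d (R w) v` (`W v false = [v]`), so all terms are `σ (∑_v MZ d (R w) v • th (m + d) v) = σ (∑_v R w v • th m v)` (BTH).
Imaginary part: the inner sums are 0. -/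
def BPA_stmt : Prop := ∀ (H : Type) [AddCommGroup H] (P : H → Prop) (g : H) (B : BS) (M : ℕ → ℕ → ℕ → ℕ) (th : ℕ → ℕ → H) (H' : AddSubgroup H), IsTh B M P g th H' →
  ∀ [CompactSpace ↥(XS B)] (α : ↥(XS B) ≃ₜ ↥(XS B)) (A : Type) [CStarAlgebra A]
  (ι : C(↥(XS B), ℂ) →⋆ₐ[ℂ] A) (u : unitary A) (c : ℤ → A →ₗ[ℂ] C(↥(XS B), ℂ)), CPr B M α ι u c → ∀ S : ℕ → Subalgebra ℂ A, IsSB B ι u c S →
  ∀ (σ : H →+ ℝ) (φ : InvSt α), (∀ (k : ℕ) (F : Am → ℝ) (f : C(↥(XS B), ℝ)), ContinuousOn F (FS (B.L k)) → (∀ x, f x = F (x.1 k)) →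
    Tendsto (fun d => ∑ v ∈ range (B.L (k + d)).n, σ (th (k + d) v) * ∑ i ∈ range ((B.L (k + d)).h v), F (B.lp k d v 0 i)) atTop (𝓝 (φ.φ f))) →
  ∀ t : TracialState A, (∀ a, t.τ a = φ.cx (c 0 a)) → ∀ (m : ℕ) (R : K0 (S m) →+ (ℕ → ℤ)), IsRk B c S m R → ∀ w : K0 (S m),
    pair t (k0map (S m).val.toRingHom w) = ((σ (∑ v ∈ range (B.L m).n, R w v • th m v) : ℝ) : ℂ)

end Pool.Agent.BND
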