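import Pool.Agent.helper77.BND.Defs
import Pool.Agent.helper77.PV.SpecK3

/-!
# Project bnd (MP_376aaf_an), block D: words, graphs of floors, the space, the homeomorphism. Rows bnd:*

RULES. Page: /team-store/MP_376aaf_bands.md. One file per row: `Pool/Agent/<seat>/BND/XXX.lean`, `import Pool.Agent.helper77.BND.SpecD`,
`namespace Pool.Agent.BND`, auxiliary lemmas prefixed `XXX_`. Theorem line: `theorem XXX (hYYY : YYY_stmt) .. : XXX_stmt`; the hypotheses allowed are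
listed in the docstring as (from YYY, ZZZ); rows wait for nobody. No straight double quotes, no `convert` / `congr!` on instance goals, no own macros.
`IsMinimal` is that of `helper37/CZ/Defs.lean`, `SmallBdry` that of `helper53/PV/DefsF.lean`.
-/

set_option autoImplicit false

open scoped Topology
open Finset

namespace Pool.Agent.BND

open Pool.Agent.CZ Pool.Agent.PV

/-! ## W. Words -/

/-- ROW bnd:WDC (short). Induction on `w` (all `i`): if `i < h a.1` take `P = []`, `j = i`; otherwise the induction hypothesis for `i - h a.1`. -/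
def WDC_stmt : Prop := ∀ (h : ℕ → ℕ) (w : List (ℕ × ℝ)) (i : ℕ), i < hw h w →
  ∃ (P : List (ℕ × ℝ)) (a : ℕ × ℝ) (Q : List (ℕ × ℝ)) (j : ℕ), w = P ++ a :: Q ∧ j < h a.1 ∧ i = hw h P + j ∧
    ∀ (Z : Type) [Zero Z] (Φ : ℕ → ℝ → ℕ → Z), fw h Φ w i = Φ a.1 a.2 j

/-- ROW bnd:WAP (short). Induction on `P`. -/
def WAP_stmt : Prop := ∀ (h : ℕ → ℕ) (P Q : List (ℕ × ℝ)), hw h (P ++ Q) = hw h P + hw h Q ∧
  ∀ (Z : Type) [Zero Z] (Φ : ℕ → ℝ → ℕ → Z) (i : ℕ), (i < hw h P → fw h Φ (P ++ Q) i = fw h Φ P i) ∧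
    fw h Φ (P ++ Q) (hw h P + i) = fw h Φ Q i

/-- ROW bnd:WSM (short). Induction on `w`; `Finset.sum_range_add` (or `Finset.range_add`..., `Finset.sum_range_add_sum`...): the first `h a.1` floors are those of `a`. -/
def WSM_stmt : Prop := ∀ (h : ℕ → ℕ) (w : List (ℕ × ℝ)) (Z : Type) [Zero Z] (Φ : ℕ → ℝ → ℕ → Z) (R : Type) [AddCommMonoid R] (f : Z → R),
  ∑ i ∈ range (hw h w), f (fw h Φ w i) = sw (fun e s => ∑ i ∈ range (h e), f (Φ e s i)) w

/-- ROW bnd:FLV (short). Induction on `u`. -/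
def FLV_stmt : Prop := ∀ (h : ℕ → ℕ) (u : List ℕ) (i : ℕ), i < (u.map h).sum →
  (fl h u i).2 < h (fl h u i).1 ∧ ∃ P Q : List ℕ, u = P ++ (fl h u i).1 :: Q ∧ i = (P.map h).sum + (fl h u i).2

/-- ROW bnd:FLS (short-medium). Induction on `u` (all `i`). Successor inside a vertex, successor of a top floor, predecessor inside a vertex, predecessor of a bottom floor, first floor, last floor. -/
def FLS_stmt : Prop := ∀ (h : ℕ → ℕ) (u : List ℕ), (fl h u 0).2 = 0 ∧
  (∀ i, i + 1 < (u.map h).sum → ((fl h u i).2 + 1 < h (fl h u i).1 → fl h u (i + 1) = ((fl h u i).1, (fl h u i).2 + 1)) ∧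
    ((fl h u i).2 + 1 = h (fl h u i).1 → (fl h u (i + 1)).2 = 0) ∧
    (0 < (fl h u (i + 1)).2 → fl h u i = ((fl h u (i + 1)).1, (fl h u (i + 1)).2 - 1)) ∧
    ((fl h u (i + 1)).2 = 0 → (fl h u i).2 + 1 = h (fl h u i).1)) ∧
  ∀ i, i + 1 = (u.map h).sum → (fl h u i).2 + 1 = h (fl h u i).1

/-- ROW bnd:FLM (short-medium; from WAP). Induction on `u`: `(a :: u).flatMap ω = ω a ++ u.flatMap ω`, `hw h (ω a) = h' a`. -/
def FLM_stmt : Prop := ∀ (h h' : ℕ → ℕ) (ω : ℕ → List (ℕ × ℝ)) (u : List ℕ), (∀ v ∈ u, hw h (ω v) = h' v) →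
  hw h (u.flatMap ω) = (u.map h').sum ∧
  (∀ (R : Type) [AddCommMonoid R] (σ : ℕ → ℝ → R), sw σ (u.flatMap ω) = (u.map fun v => sw σ (ω v)).sum) ∧
  ∀ (Z : Type) [Zero Z] (Φ : ℕ → ℝ → ℕ → Z) (i : ℕ), i < (u.map h').sum →
    fw h Φ (u.flatMap ω) i = fw h Φ (ω (fl h' u i).1) (fl h' u i).2

/-! ## E. The graph of floors -/

/-- ROW bnd:EMI (medium; from FLV). `(fl l.h (l.W e b) i).1 < l.n` (FLV, `mem`, `ht`). Values: for `e < n`: `emb = single (e, i) 1`. For `n ≤ e`: the value at `(e, i)` is `s (1 - s) (1 + s I)` (the two other terms are supported on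
vertices, `< n`), at other `(a, j)` with `n ≤ a` it is 0. Case `n ≤ e'`, `0 < s' < 1`: the value of the right side at `(e', i')` is not 0 (real part `s' (1 - s') > 0`), so `(e, i) = (e', i')` and `n ≤ e`; real parts and imaginary parts give
`s (1 - s) = s' (1 - s')` and `s (1 - s) s = s' (1 - s') s'`, so `s = s'`. Case `e' < n`: the right side is `single (e', i') 1`. If `e < n`: `(e, i) = (e', i')`. If `n ≤ e`: the value at `(e, i)` is 0, so `s = 0` or `s = 1`,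
and the left side is `single (fl ..) 1`, so `fl .. = (e', i')` (`b = false`, resp. `true`). -/
def EMI_stmt : Prop := ∀ l : Lv, IsLv l → ∀ (e : ℕ) (s : ℝ) (i e' : ℕ) (s' : ℝ) (i' : ℕ), e < l.N → s ∈ U → i < l.h e →
  Can l e' s' → i' < l.h e' → emb l e s i = emb l e' s' i' →
  (e = e' ∧ i = i' ∧ (e < l.n ∨ s = s')) ∨
    ∃ b : Bool, s = (if b then 1 else 0) ∧ l.n ≤ e ∧ e' < l.n ∧ fl l.h (l.W e b) i = (e', i')

/-- ROW bnd:EME (short-medium; from FLV). (1) Ends: for `e < n`, `W e b = [e]`, `fl = (e, i)`; for `n ≤ e` put `s = 0, 1` in the definition. (2) Vertices do not depend on `s`. (3) Continuity in `s`. (4) Canonical form: if `n ≤ e` and `s = 0` or `s = 1` use (1). -/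
def EME_stmt : Prop := ∀ l : Lv, IsLv l →
  (∀ e i (b : Bool), e < l.N → i < l.h e →
    emb l e (if b then 1 else 0) i = emb l (fl l.h (l.W e b) i).1 0 (fl l.h (l.W e b) i).2) ∧
  (∀ e s i, e < l.n → emb l e s i = emb l e 0 i) ∧
  (∀ e i, Continuous fun s => emb l e s i) ∧
  ∀ e s i, e < l.N → s ∈ U → i < l.h e →
    ∃ e' s' i', Can l e' s' ∧ i' < l.h e' ∧ emb l e s i = emb l e' s' i' ∧ (i = 0 → i' = 0)

/-- ROW bnd:EMC (short; from EME). `FS l` is the finite union of the images of `U` under `s ↦ emb l e s i`. -/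
def EMC_stmt : Prop := ∀ l : Lv, IsLv l → IsCompact (FS l)

/-- ROW bnd:LFT (medium; from EMI, EME, FLV). Lifting. For `y ∈ FS l` choose `(e, s, i)` with `y = emb l e s i` and put `f y = g e s i` (outside `FS l`: any value; `Z` is nonempty as `g 0 0 0 : Z`). Independence: every `(e, s, i)` can be replaced by a canonical one with the same
`emb` and the same `g` (if `n ≤ e`, `s = 0, 1` use the third hypothesis and EME 1), and for two canonical ones use EMI. Continuity: for `C ⊆ Z` closed, `FS l ∩ f ⁻¹' C` is the finite union over `e < N`, `i < h e` of the images under the continuous map `s ↦ emb l e s i` of the sets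
`{s ∈ U | g e s i ∈ C}`, which are compact; so it is closed (`continuousOn_iff_isClosed`). -/
def LFT_stmt : Prop := ∀ l : Lv, IsLv l → ∀ (Z : Type) [TopologicalSpace Z] (g : ℕ → ℝ → ℕ → Z),
  (∀ e i, e < l.N → i < l.h e → ContinuousOn (fun s => g e s i) U) → (∀ e s i, e < l.n → s ∈ U → i < l.h e → g e s i = g e 0 i) →
  (∀ e i (b : Bool), l.n ≤ e → e < l.N → i < l.h e →
    g e (if b then 1 else 0) i = g (fl l.h (l.W e b) i).1 0 (fl l.h (l.W e b) i).2) →
  ∃ f : Am → Z, ContinuousOn f (FS l) ∧ ∀ e s i, e < l.N → s ∈ U → i < l.h e → f (emb l e s i) = g e s i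

/-! ## P. The maps between the levels -/

/-- one floor up, on the level `m`, as a function of the letter of the level `m + 1` -/
noncomputable def BS.up (B : BS) (m e : ℕ) (s : ℝ) (i : ℕ) : Am :=
  if i + 1 < (B.L (m + 1)).h e then B.st m e s (i + 1) else bt (B.L m)

/-- one floor down -/
noncomputable def BS.dn (B : BS) (m e : ℕ) (s : ℝ) (i : ℕ) : Am :=
  if i = 0 then tp (B.L m) else B.st m e s (i - 1)

/-- `p m : FS (L (m + 1)) → FS (L m)` is continuous with the values `v m e s i` -/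
structure IsMp (B : BS) (v : ℕ → ℕ → ℝ → ℕ → Am) (p : ℕ → Am → Am) : Prop where
  cont : ∀ m, ContinuousOn (p m) (FS (B.L (m + 1)))
  maps : ∀ m, ∀ y ∈ FS (B.L (m + 1)), p m y ∈ FS (B.L m)
  val : ∀ m e s i, e < (B.L (m + 1)).N → s ∈ U → i < (B.L (m + 1)).h e → p m (emb (B.L (m + 1)) e s i) = v m e s i

/-- `(α⁻¹ x)` in terms of the words -/
def IsAlI (B : BS) (α : ↥(XS B) ≃ₜ ↥(XS B)) : Prop :=
  ∀ (x : ↥(XS B)) (m e : ℕ) (s : ℝ) (i : ℕ), e < (B.L (m + 1)).N → s ∈ U → i < (B.L (m + 1)).h e →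
    x.1 (m + 1) = emb (B.L (m + 1)) e s i → (α.symm x).1 m = B.dn m e s i

/-- ROW bnd:STN (short-medium; from WDC, WAP). `i < h' e = hw (w m e s)` (`htw`); WDC gives `P, a, Q, j`; the floors `hw P + k`, `k < h a.1`, are those of `a` (WAP for `P ++ (a :: Q)`, and `fw (a :: Q) k = Φ a.1 a.2 k`). If `Q = []` the letter is the last one: `a = (0, 0)` (`top`) and `hw P + h a.1 = h' e`; otherwise
`Q = a' :: Q'` and the floor `hw P + h a.1` is the floor 0 of `a'`. If `P = []`: `a = (0, 0)` (`bot`); otherwise `P = P' ++ [a'']` and the floor `hw P - 1` is the last floor of `a''` (heights are positive: `big`). All letters: `lett`. -/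
def STN_stmt : Prop := ∀ (B : BS) (M : ℕ → ℕ → ℕ → ℕ), IsBS B M → ∀ m e s i, e < (B.L (m + 1)).N → s ∈ U → i < (B.L (m + 1)).h e →
  ∃ (a : ℕ × ℝ) (j i₀ : ℕ), a ∈ B.w m e s ∧ a.1 < (B.L m).N ∧ a.2 ∈ U ∧ j < (B.L m).h a.1 ∧ i = i₀ + j ∧ i₀ + (B.L m).h a.1 ≤ (B.L (m + 1)).h e ∧
    (∀ k, k < (B.L m).h a.1 → B.st m e s (i₀ + k) = emb (B.L m) a.1 a.2 k) ∧
    (∀ (k d : ℕ), k + d = m → ∀ r, r < (B.L m).h a.1 → B.lp k (d + 1) e s (i₀ + r) = B.lp k d a.1 a.2 r) ∧
    (i₀ = 0 → a = (0, 0)) ∧ (0 < i₀ → ∃ a' : ℕ × ℝ, a'.1 < (B.L m).N ∧ a'.2 ∈ U ∧ B.st m e s (i₀ - 1) = emb (B.L m) a'.1 a'.2 ((B.L m).h a'.1 - 1)) ∧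
    (i₀ + (B.L m).h a.1 = (B.L (m + 1)).h e → a = (0, 0)) ∧
    (i₀ + (B.L m).h a.1 < (B.L (m + 1)).h e → ∃ a' : ℕ × ℝ, a'.1 < (B.L m).N ∧ a'.2 ∈ U ∧
      B.st m e s (i₀ + (B.L m).h a.1) = emb (B.L m) a'.1 a'.2 0)

/-- ROW bnd:STL (short; from WDC, WAP). For a letter `a` of the word there is `i₀` with the floors of `a` at the places `i₀ + k`: write the word as `P ++ a :: Q`, `i₀ = hw P`. -/
def STL_stmt : Prop := ∀ (B : BS) (M : ℕ → ℕ → ℕ → ℕ), IsBS B M → ∀ m e s, e < (B.L (m + 1)).N → s ∈ U → ∀ a ∈ B.w m e s,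
  ∃ i₀, i₀ + (B.L m).h a.1 ≤ (B.L (m + 1)).h e ∧ (∀ k, k < (B.L m).h a.1 → B.st m e s (i₀ + k) = emb (B.L m) a.1 a.2 k)

/-- ROW bnd:STE (short; from STN). The first floor is the bottom, the last floor the top of the vertex 0: in STN, `i = 0` forces `i₀ = 0`, `j = 0`, `a = (0, 0)`; `i = h' e - 1` forces `i₀ + h a = h' e`, `j = h a - 1`. Values in `FS`. -/
def STE_stmt : Prop := ∀ (B : BS) (M : ℕ → ℕ → ℕ → ℕ), IsBS B M → ∀ m, bt (B.L m) ∈ FS (B.L m) ∧ tp (B.L m) ∈ FS (B.L m) ∧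
  ∀ e s, e < (B.L (m + 1)).N → s ∈ U → B.st m e s 0 = bt (B.L m) ∧ B.st m e s ((B.L (m + 1)).h e - 1) = tp (B.L m) ∧
    ∀ i, i < (B.L (m + 1)).h e → B.st m e s i ∈ FS (B.L m)

/-- ROW bnd:UPC (medium; from FLM, FLS, FLV, STE). The ends. `st m e (b) i` is the floor `i` of the word `(W e b).flatMap (w m · 0)` (`ends`), so by FLM (`hw (w m v 0) = h' v`: `htw`) it is the floor `j` of `w m v 0`, `(v, j) = fl h' (W e b) i`: first claim. For `up`: let `i + 1 < h' e = sum` (`ht` of IsLv). If `j + 1 < h' v`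
then `fl (i + 1) = (v, j + 1)` (FLS) and both sides are `st m v 0 (j + 1)`. If `j + 1 = h' v` then `fl (i + 1) = (v', 0)` and the left side is `st m v' 0 0 = bt` (STE). If `i + 1 = h' e` then `j + 1 = h' v` (FLS) and both sides are `bt`. `dn`: in the same way with the predecessors and `tp` (STE: last floor). -/
def UPC_stmt : Prop := ∀ (B : BS) (M : ℕ → ℕ → ℕ → ℕ), IsBS B M → ∀ m e i (b : Bool), (B.L (m + 1)).n ≤ e → e < (B.L (m + 1)).N →
  i < (B.L (m + 1)).h e → let q := fl (B.L (m + 1)).h ((B.L (m + 1)).W e b) i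
  B.st m e (if b then 1 else 0) i = B.st m q.1 0 q.2 ∧ B.up m e (if b then 1 else 0) i = B.up m q.1 0 q.2 ∧
    B.dn m e (if b then 1 else 0) i = B.dn m q.1 0 q.2

/-- ROW bnd:PMA (short-medium; from LFT, UPC, STE). LFT for `g = B.st m`, `B.up m`, `B.dn m` (continuity: `cont`; vertices: `vtx`; ends: UPC) for every `m` (choice); the values are in `FS` (STE). -/
def PMA_stmt : Prop := ∀ (B : BS) (M : ℕ → ℕ → ℕ → ℕ), IsBS B M → ∃ p q r : ℕ → Am → Am, IsMp B B.st p ∧ IsMp B B.up q ∧ IsMp B B.dn r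

/-- ROW bnd:PQR (medium; from STN, STE). `y = emb e s i` on the level `m + 2`; STN for the level `m + 1` (so `m` is replaced by `m + 1`): letter `a`, floor `j`, `p (m + 1) y = emb a j`. (1) `p m (q (m + 1) y)`: if `j + 1 < h a` it is `p m (emb a (j + 1)) = st m a (j + 1)`; otherwise `q (m + 1) y` is a floor 0 (of the next letter, or
`bt (L (m + 1)) = emb 0 0 0`), and `p m` of it is `bt (L m)` (STE). This is `up m a j = q m (emb a j) = q m (p (m + 1) y)`. (2) the same with `r`, `tp` (a top floor is mapped to `tp (L m)`: STE). (3) `q m (r (m + 1) y)`: if `i = 0`: `r (m + 1) y = tp (L (m + 1)) = emb 0 0 (h 0 - 1)`, `q m` of it is `bt`; and `p (m + 1) y = bt`,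
`p m (bt) = bt` (STE). If `i > 0`, `j > 0`: `r (m + 1) y = emb a (j - 1)`, `q m` of it is `st m a j = p m (p (m + 1) y)`. If `i > 0`, `j = 0`: `r (m + 1) y` is the top floor of a letter, `q m` of it is `bt (L m)`, and `p m (emb a 0) = bt (L m)`. (4) the same with `q`, `r` exchanged. -/
def PQR_stmt : Prop := ∀ (B : BS) (M : ℕ → ℕ → ℕ → ℕ), IsBS B M → ∀ p q r : ℕ → Am → Am, IsMp B B.st p → IsMp B B.up q → IsMp B B.dn r →
  ∀ m, ∀ y ∈ FS (B.L (m + 2)), p m (q (m + 1) y) = q m (p (m + 1) y) ∧ p m (r (m + 1) y) = r m (p (m + 1) y) ∧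
    q m (r (m + 1) y) = p m (p (m + 1) y) ∧ r m (q (m + 1) y) = p m (p (m + 1) y)

/-- ROW bnd:HOM (medium; from PMA, PQR). `x ∈ XS B` iff `x m ∈ FS (L m)` and `x m = p m (x (m + 1))` for all `m`. `(α x) m = q m (x (m + 1))` is in `XS B`: `p m (q (m + 1) (x (m + 2))) = q m (p (m + 1) (x (m + 2))) = q m (x (m + 1))`. `(β x) m = r m (x (m + 1))`. `(α (β x)) m = q m (r (m + 1) (x (m + 2))) = p m (p (m + 1) (x (m + 2))) = x m`,
and likewise `β α = id`. Continuity: each coordinate is `q m` (continuous on `FS (L (m + 1))`) of a coordinate (`ContinuousOn.comp_continuous`). -/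
def HOM_stmt : Prop := ∀ (B : BS) (M : ℕ → ℕ → ℕ → ℕ), IsBS B M → ∃ α : ↥(XS B) ≃ₜ ↥(XS B), IsAl B α ∧ IsAlI B α

/-- ROW bnd:XCP (short-medium; from PMA, EMC). `XS B` is closed in the compact set `Set.pi univ (fun m => FS (L m))`: the condition `x m = p m (x (m + 1))` is closed (`p m` is continuous on the compact set `FS (L (m + 1))`; `Am` is Hausdorff). Metrizable: `ℕ → Am` is metrizable (countable products; if no instance is found: `Am` is second countable and regular). -/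
def XCP_stmt : Prop := ∀ (B : BS) (M : ℕ → ℕ → ℕ → ℕ), IsBS B M → IsCompact (XS B) ∧ TopologicalSpace.MetrizableSpace ↥(XS B)

/-- ROW bnd:XSU (short-medium; from PMA, STL). Every point `y` of `FS (L m)` is a coordinate. `p m` is onto: `y = emb e t i`, `cov` and STL. Choose `x (m + d)`, `d = 0, 1, ..` recursively with `p (m + d) (x (m + d + 1)) = x (m + d)`, and `x k = p k (x (k + 1))` for `k < m`. -/
def XSU_stmt : Prop := ∀ (B : BS) (M : ℕ → ℕ → ℕ → ℕ), IsBS B M → ∀ m, ∀ y ∈ FS (B.L m), ∃ x : ↥(XS B), x.1 m = y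

/-- ROW bnd:XIN (short; from XSU, EMI). If `XS B` had `k` points: the `k + 1` points `emb (L k) 0 0 i`, `i ≤ k < h 0` (`big`), are different (EMI, vertex 0) and all are coordinates. -/
def XIN_stmt : Prop := ∀ (B : BS) (M : ℕ → ℕ → ℕ → ℕ), IsBS B M → Infinite ↥(XS B)

/-- ROW bnd:LPX (short; from WDC). Induction on `d` (for all `e s i`): `x (k + d) = st (k + d) e s i`, and by WDC (same `a, j` for `Φ = emb` and `Φ = lp k d`) it is `emb a j`, while `lp k (d + 1) e s i = lp k d a j`. -/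
def LPX_stmt : Prop := ∀ (B : BS) (M : ℕ → ℕ → ℕ → ℕ), IsBS B M → ∀ (x : ↥(XS B)) (k d e : ℕ) (s : ℝ) (i : ℕ), e < (B.L (k + d)).N → s ∈ U →
  i < (B.L (k + d)).h e → x.1 (k + d) = emb (B.L (k + d)) e s i → x.1 k = B.lp k d e s i

/-- ROW bnd:SUC (medium; from STN, EMI, EME, FLS, FLV). Let `x (m + 1) = emb e₁ s₁ i₁`; STN: `a, j, i₀` with `emb a j = x m = emb e s i`. EMI: (A) `a.1 = e`, `j = i` and (`e < n` or `a.2 = s`); (B) `n ≤ a.1`, `a.2 = b`, `e < n`, `fl h (W a.1 b) j = (e, i)`. If `i + 1 < h e`: (A) `(α x) m = st (i₁ + 1) = emb a (j + 1)`; (B) `j + 1 < h a.1` (otherwise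
`i + 1 = h e` by FLS) and `fl (j + 1) = (e, i + 1)`, EME 1. If `i + 1 = h e`: (A) `j + 1 = h a.1`: `(α x) m` is `bt` (if `i₁ + 1 = h' e₁`) or the floor 0 of a letter; (B) if `j + 1 < h a.1` it is `emb a (j + 1) = emb v 0 0` (FLS), otherwise as in (A). A floor 0 has a canonical form with floor 0 (EME 4).
Predecessor (`0 < i`): (A) `j > 0`: `emb a (j - 1)`; (B) `j > 0` (FLS: `fl 0` has floor 0) and `fl (j - 1) = (e, i - 1)`. -/
def SUC_stmt : Prop := ∀ (B : BS) (M : ℕ → ℕ → ℕ → ℕ), IsBS B M → ∀ α : ↥(XS B) ≃ₜ ↥(XS B), IsAl B α → IsAlI B α →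
  ∀ (x : ↥(XS B)) (m e : ℕ) (s : ℝ) (i : ℕ), Can (B.L m) e s → i < (B.L m).h e → x.1 m = emb (B.L m) e s i →
  (i + 1 < (B.L m).h e → (α x).1 m = emb (B.L m) e s (i + 1)) ∧
  (i + 1 = (B.L m).h e → ∃ e' s', Can (B.L m) e' s' ∧ (α x).1 m = emb (B.L m) e' s' 0) ∧
  (0 < i → (α.symm x).1 m = emb (B.L m) e s (i - 1))

/-- ROW bnd:BLK (short-medium; from SUC, EME). Canonical form of `x m` (EME 4); then induction on `j - i` in both directions with SUC (`α ^ (k + 1) = α * α ^ k`). -/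
def BLK_stmt : Prop := ∀ (B : BS) (M : ℕ → ℕ → ℕ → ℕ), IsBS B M → ∀ α : ↥(XS B) ≃ₜ ↥(XS B), IsAl B α → IsAlI B α →
  ∀ (x : ↥(XS B)) (m : ℕ), ∃ e s i, Can (B.L m) e s ∧ i < (B.L m).h e ∧ x.1 m = emb (B.L m) e s i ∧
    ∀ j, j < (B.L m).h e → ((α ^ ((j : ℤ) - i)) x).1 m = emb (B.L m) e s j

/-- ROW bnd:MIN (medium; from BLK, STL, LPX, PMA). Let `x, y ∈ XS B`. A neighbourhood of `y` contains the `z` with `‖z k c - y k c‖ < ε` for `k ≤ K`, `c ∈ C` (finite). Let `m ≥ K`, `1 / (m + 1) < ε`; `y m = emb e t i`. BLK for `x` and `m + 1`: letter `(e', s')`, all its floors are `(α ^ (j - i')) x` on the level `m + 1`. `dns`: `(e, t') ∈ w m e' s'`; STL: `i₀`.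
`z = α ^ (i₀ + i - i') x` has `z (m + 1) = emb e' s' (i₀ + i)`, `z m = st m e' s' (i₀ + i) = emb e t' i`. LPX: `z k = lp k (m - k) e t' i`, `y k = lp k (m - k) e t i`: close by `dns`. -/
def MIN_stmt : Prop := ∀ (B : BS) (M : ℕ → ℕ → ℕ → ℕ), IsBS B M → ∀ α : ↥(XS B) ≃ₜ ↥(XS B), IsAl B α → IsAlI B α → IsMinimal α

/-! ## S. The small boundary property -/

/-- ROW bnd:SBA (medium; from WSM, EMI, EME). `T d` = the letters `(a, t)` of the level `k + d` with `t ∈ S (k + d)`, and the vertices `(a, 0)`: finite (`sfin`). `Bad` = all `s` such that `0 < s < 1` and `lp k d a t j = emb (L k) e s i` for some `d`, `(a, t) ∈ T d`, `j < h a`, `n ≤ e < N`, `i < h e`: countable, because `s` is determined by the point and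
`(e, i)` (EMI). Let `s ∉ Bad`, `q = emb (L k) e s i`. Letters in `T d` (and all vertices: `lp` of a vertex does not depend on `t`: `vtx`, EME 2) never take the value `q`. Induction on `d`: at most one `j < h a` with `lp k d a t j = q`: `d = 0`: EMI; `d + 1`: `w (k + d) a t = P ++ x :: Q` (`oneb`), the number is the sum over the letters
(WSM with `f = ` indicator of `q`, `htw`), 0 for the letters of `P`, `Q`, at most 1 for `x`. -/
def SBA_stmt : Prop := ∀ (B : BS) (M : ℕ → ℕ → ℕ → ℕ), IsBS B M → ∀ k, ∃ Bad : Set ℝ, Bad.Countable ∧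
  ∀ e s i, (B.L k).n ≤ e → e < (B.L k).N → 0 < s → s < 1 → s ∉ Bad → i < (B.L k).h e →
    ∀ (d a : ℕ) (t : ℝ), a < (B.L (k + d)).N → t ∈ U → ∀ j j', j < (B.L (k + d)).h a → j' < (B.L (k + d)).h a →
      B.lp k d a t j = emb (B.L k) e s i → B.lp k d a t j' = emb (B.L k) e s i → j = j'

/-- ROW bnd:SBV (medium; from SUC, BLK, LPX). The number of `j < N` with `(α ^ j x) k = q` is at most `N / (m + 1) + 2`, `m = k + d`, if every letter of level `m` takes the value `q` at most once. If `x m = emb e s 0` (canonical) it is at most `N / (m + 1) + 1`: strong induction on `N`: if `N < h e`: all these points are floors of `(e, s)` (SUC), so at most 1;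
otherwise the first `h e ≥ m + 1` (`big`) contain at most one, and `α ^ (h e) x` is again at a floor 0 (SUC). In general the first part up to the end of the block (BLK) contains at most one. -/
def SBV_stmt : Prop := ∀ (B : BS) (M : ℕ → ℕ → ℕ → ℕ), IsBS B M → ∀ α : ↥(XS B) ≃ₜ ↥(XS B), IsAl B α → IsAlI B α → ∀ (k d : ℕ) (q : Am),
  (∀ (a : ℕ) (t : ℝ), a < (B.L (k + d)).N → t ∈ U → ∀ j j', j < (B.L (k + d)).h a → j' < (B.L (k + d)).h a → B.lp k d a t j = q → B.lp k d a t j' = q → j = j') →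
  ∀ (x : ↥(XS B)) (N : ℕ), by classical exact ((((range N).filter fun j => ((α ^ j) x).1 k = q).card : ℝ) ≤ (N : ℝ) / ((k + d : ℕ) + 1) + 2)

/-- ROW bnd:SBN (short-medium; from SBA, SBV). `F = {x | x k = q}` is closed. For an invariant probability `μ`: `N μ(F) = ∫ #{j < N | α ^ j x ∈ F} dμ ≤ N / (m + 1) + 2` (`μ (α ^ j ⁻¹ F) = μ F`), for all `N ≥ 1`, `m ≥ k`. -/
def SBN_stmt : Prop := ∀ (B : BS) (M : ℕ → ℕ → ℕ → ℕ), IsBS B M → ∀ α : ↥(XS B) ≃ₜ ↥(XS B), IsAl B α → IsAlI B α → ∀ k, ∃ Bad : Set ℝ, Bad.Countable ∧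
  ∀ e s i, (B.L k).n ≤ e → e < (B.L k).N → 0 < s → s < 1 → s ∉ Bad → i < (B.L k).h e →
    ∀ [MeasurableSpace ↥(XS B)] [BorelSpace ↥(XS B)] (μ : MeasureTheory.Measure ↥(XS B)), MeasureTheory.IsProbabilityMeasure μ →
      μ.map α = μ → μ {x | x.1 k = emb (B.L k) e s i} = 0

/-- ROW bnd:SBT (medium; from LFT, EMI, EME, FLV). Tent functions. `y₀ = emb e₀ s₀ i₀` canonical. If `n ≤ e₀`: `δ = min s₀ (1 - s₀)`, `g e s i = max 0 (1 - |s - s₀| / δ)` for `(e, i) = (e₀, i₀)`, 0 otherwise (0 at the ends). If `e₀ < n`: `g e s i = 1` or `0` for `e < n` (is `(e, i) = (e₀, i₀)`?), and for bands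
`g e s i = [fl (W e false) i = (e₀, i₀)] max 0 (1 - 2 s) + [fl (W e true) i = (e₀, i₀)] max 0 (2 s - 1)`. LFT gives `f`. `0 ≤ f ≤ 1`, `f y = 1` only for `y = y₀`. `T`: for `c ∈ (0, 1)`, `f (emb e s i) = c` with canonical `(e, s)` forces `n ≤ e` and `s ∈ {s₀ + δ (1 - c), s₀ - δ (1 - c)}`, resp. `s ∈ {(1 - c) / 2, 1 - (1 - c) / 2}`:
for each of the two functions `c ↦ s` (injective) the set of the `c` with `s ∈ Bad` is countable. -/
def SBT_stmt : Prop := ∀ l : Lv, IsLv l → ∀ Bad : Set ℝ, Bad.Countable → ∀ y₀ ∈ FS l, ∃ f : Am → ℝ, ContinuousOn f (FS l) ∧ f y₀ = 1 ∧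
  (∀ y ∈ FS l, f y ≤ 1 ∧ (f y = 1 → y = y₀)) ∧ ∃ T : Set ℝ, T.Countable ∧ ∀ c, 0 < c → c < 1 → c ∉ T →
    ∃ F : Finset Am, (∀ y ∈ F, ∃ e s i, l.n ≤ e ∧ e < l.N ∧ 0 < s ∧ s < 1 ∧ s ∉ Bad ∧ i < l.h e ∧ y = emb l e s i) ∧ ∀ y ∈ FS l, f y = c → y ∈ F

/-- ROW bnd:SBB (medium; from SBN, SBT, PMA, EMC). `x ∈ G`, `G` open in `XS B`. There are `k` and an open `O ⊆ Am` with `x k ∈ O` and `{z | z k ∈ O} ⊆ G`: the `z j`, `j ≤ k`, are continuous functions of `z k ∈ FS (L k)` (PMA; if not `G` would contain... : use the basic neighbourhoods of the product and pull back by `p j ∘ ... ∘ p (k - 1)`). SBT for `y₀ = x k` and the set `Bad` of SBN.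
As `f < 1` on the compact set `FS (L k) \ O`, `f ≤ c₀ < 1` there. Choose `c ∈ (max c₀ 0, 1)`, `c ∉ T` (uncountable). `V = {z | c < f (z k)}` is open, `x ∈ V ⊆ G`, `frontier V ⊆ {z | f (z k) = c}`, a finite union of null sets (SBN). -/
def SBB_stmt : Prop := ∀ (B : BS) (M : ℕ → ℕ → ℕ → ℕ), IsBS B M → ∀ α : ↥(XS B) ≃ₜ ↥(XS B), IsAl B α → IsAlI B α → SmallBdry α

end Pool.Agent.BND
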