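import Pool.Agent.helper77.BND.SpecB
import Pool.Agent.helper53.BND.SpecT
import Pool.Agent.helper70.BND.DefsH
import Pool.Agent.helper77.PV.SpecK3
import Pool.Agent.helper77.PV.Fin

/-!
# Project bnd (MP_376aaf_an), block F: final assembly. Rows bnd:*

RULES as in SpecD, SpecY, SpecB. `import Pool.Agent.helper77.BND.SpecF`. Here also `open Pool.Agent.PVH`.
-/

set_option autoImplicit false

open scoped Topology Matrix
open Filter Finset

namespace Pool.Agent.BND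

open Pool.Agent.CZ Pool.Agent.PV Pool.Agent.PVH

/-- ROW bnd:FDN (short-medium). `H₂ = H × (ℕ →₀ ℤ)`, `j x = (x, 0)`. `K` is compact and metrizable (`CompactSpace K` from `isCompact_iff_compactSpace`), so `C(K, ℝ)` is a separable (second countable) metric space, and so is the set of the affine functions: there is a sequence `a : ℕ → C(K, ℝ)` of affine functions which is dense in it
(`TopologicalSpace.exists_countable_dense`, `TopologicalSpace.denseSeq` of the subtype; the subtype contains 0). `ρ₂ (x, f) = ρ x + ∑ n, f n • a n` (`AddMonoidHom.coprod`, `Finsupp.liftAddHom`, `zmultiplesHom`). Affine: sums, integer multiples. Dense: `x = 0`, `f = single n 1`. Pure: `n • (x, f) = (x', 0)` gives `n • f = 0`, `f = 0`.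
Torsion free, injective: clear. `ρ₂ (j g) = ρ g = 1`. -/
def FDN_stmt : Prop := ∀ (E : Type) [AddCommGroup E] [Module ℝ E] [TopologicalSpace E] (K : Set E) [TopologicalSpace.MetrizableSpace K],
  IsCompact K → Convex ℝ K → K.Nonempty → ∀ (H : Type) [AddCommGroup H] [Countable H] (ρ : H →+ C(K, ℝ)) (g : H), (∀ x, IsAff (ρ x)) → ρ g = 1 →
  (∀ (n : ℕ) (x : H), 1 ≤ n → n • x = 0 → x = 0) →
  ∃ (H₂ : Type) (_ : AddCommGroup H₂) (_ : Countable H₂) (ρ₂ : H₂ →+ C(K, ℝ)) (j : H →+ H₂), KD K ρ₂ (j g) ∧ Function.Injective j ∧ (∀ x, ρ₂ (j x) = ρ x) ∧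
    (∀ (n : ℕ) (y : H₂), 1 ≤ n → n • y ∈ j.range → y ∈ j.range) ∧ ∀ (n : ℕ) (y : H₂), 1 ≤ n → n • y = 0 → y = 0

/-- the result of block L: `K₁` for rank one -/
def FLK_stmt : Prop := ∀ (H : Type) [AddCommGroup H] (P : H → Prop) (g : H) (B : BS) (M : ℕ → ℕ → ℕ → ℕ) (th : ℕ → ℕ → H) (H' : AddSubgroup H),
  IsTh B M P g th H' → ∀ G : ℕ → Set ℕ, IsB1 B G → ∀ [CompactSpace ↥(XS B)] (α : ↥(XS B) ≃ₜ ↥(XS B)) (A : Type) [CStarAlgebra A]
  (ι : C(↥(XS B), ℂ) →⋆ₐ[ℂ] A) (u : unitary A) (c : ℤ → A →ₗ[ℂ] C(↥(XS B), ℂ)), CPr B M α ι u c → Nonempty (K1 A ≃+ ℤ)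

/-- ROW bnd:FSY (medium; from XCP, XIN, HOM, MIN, SBB, LCP, COE, BKA, BPA, TST, JKT). The crossed product of a band system. XCP: `XS B` is compact (`isCompact_iff_compactSpace`) and metrizable (so Hausdorff), infinite (XIN). HOM: `α`. MIN, SBB. LCP: `A, ι, u`; COE: `c`. `CPr`. BKA: `S, R, φ₀ : K0 A ≃+ H'`, `φ₀ [1] = g`. TST: `ψ : K → InvSt α`. JKT: `τ`, `(τ t).τ a = (ψ t).cx (c 0 a)`.
The pairing: `z = val_* w` (BKA), BPA with `σ = x ↦ ρ x t` (`(evaluation at t) ∘ ρ`), `φ = ψ t`, the third claim of TST: `pair (τ t) z = ρ (∑ R m w v • th m v) t = ρ (φ₀ z) t`. -/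
def FSY_stmt : Prop := ∀ (E : Type) [AddCommGroup E] [Module ℝ E] [TopologicalSpace E] [IsTopologicalAddGroup E] [ContinuousSMul ℝ E]
  [LocallyConvexSpace ℝ E] [T2Space E] (K : Set E) (H : Type) [AddCommGroup H] (ρ : H →+ C(K, ℝ)) (g : H),
  KD K ρ g → SOG (KP K ρ) g → ∀ (B : BS) (M : ℕ → ℕ → ℕ → ℕ) (th : ℕ → ℕ → H) (H' : AddSubgroup H), IsBS B M → IsTh B M (KP K ρ) g th H' → ∀ hg : g ∈ H',
  ∃ (_ : CompactSpace ↥(XS B)) (_ : TopologicalSpace.MetrizableSpace ↥(XS B)) (_ : Infinite ↥(XS B)) (α : ↥(XS B) ≃ₜ ↥(XS B)), IsMinimal α ∧ SmallBdry α ∧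
    ∃ (A : Type) (_ : CStarAlgebra A) (ι : C(↥(XS B), ℂ) →⋆ₐ[ℂ] A) (u : unitary A) (c : ℤ → A →ₗ[ℂ] C(↥(XS B), ℂ)), IsCrossedProduct α ι u ∧ CPr B M α ι u c ∧
    HasInv A (⟨g, hg⟩ : H') (K1 A) K (ρ.comp H'.subtype)

/-- ROW bnd:FK0 (medium; from FDN, SGK, HEX, FSY, FLK, KHI). The base for every torsion free `H`. FDN: `H₂, ρ₂, j`; `SOG (KP K ρ₂) (j g)`: SGK. `H' = j.range` is pure. HEX: `B, M, th`, and `G` if `H` has rank one (`RkOne j.range`: `a • x = b • y` is mapped by `j`). FSY: `HasInv A ⟨j g, _⟩ (K1 A) K (ρ₂ ∘ subtype)`. Transport (KHI) with `H' ≃+ H` (inverse of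
`AddMonoidHom.ofInjective`), `AddEquiv.refl (K1 A)`: `HasInv A g (K1 A) K ρ`. `X = XS B` (a type in `Type`). Rank one: FLK. -/
def FK0_stmt : Prop := ∀ (E : Type) [AddCommGroup E] [Module ℝ E] [TopologicalSpace E] [IsTopologicalAddGroup E] [ContinuousSMul ℝ E]
  [LocallyConvexSpace ℝ E] [T2Space E] (K : Set E) [TopologicalSpace.MetrizableSpace K], IsCompact K → Convex ℝ K → K.Nonempty → IsSimplex K →
  ∀ (H : Type) [AddCommGroup H] [Countable H] (ρ : H →+ C(K, ℝ)) (g : H), (∀ x, IsAff (ρ x)) → ρ g = 1 →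
  (∀ (n : ℕ) (x : H), 1 ≤ n → n • x = 0 → x = 0) →
  ∃ (X : Type) (_ : TopologicalSpace X) (_ : CompactSpace X) (_ : TopologicalSpace.MetrizableSpace X) (_ : Infinite X) (α : X ≃ₜ X),
    IsMinimal α ∧ SmallBdry α ∧ ∃ (A : Type) (_ : CStarAlgebra A) (ι : C(X, ℂ) →⋆ₐ[ℂ] A) (u : unitary A), IsCrossedProduct α ι u ∧
    HasInv A g (K1 A) K ρ ∧ ((∀ x y : H, ∃ a b : ℤ, (a ≠ 0 ∨ b ≠ 0) ∧ a • x = b • y) → Nonempty (K1 A ≃+ ℤ))

/-- ROW bnd:FAS (short-medium; from KSC, KHI). Adding `S` and `G'`. KSC for `S₀ = S`, `S₁ = G'` (a countable group, as a subgroup of `G₀`) gives `HasInv A ((g, 0) : H × S) (J × G') K (ρ_H ∘ fst)`; `H × S ≃+ G₀` (`IsCompl`: `(x, s) ↦ x + s` is bijective), `ρ (x + s) = ρ x`. `Countable ↥S`: inferred. See helper41/PV/KSU.lean for the same argument. -/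
def FAS_stmt : Prop := ∀ (G₀ : Type) [AddCommGroup G₀] [Countable G₀] (g : G₀) (E : Type) [AddCommGroup E] [Module ℝ E] [TopologicalSpace E] (K : Set E)
  (ρ : G₀ →+ C(K, ℝ)) (H S : AddSubgroup G₀), IsCompl H S → ∀ hg : g ∈ H, (∀ x ∈ S, ρ x = 0) → ∀ (J G' : Type) [AddCommGroup J] [AddCommGroup G'] [Countable G'],
  OccursSBP (⟨g, hg⟩ : H) J K (ρ.comp H.subtype) → OccursSBP g (J × G') K ρ

/-- ROW bnd:FRK (short-medium). Rank one groups. `H = ` any complement from the hypothesis. `x, y ∈ H`: `n • x = k • g`, `m • y = l • g`, `n, m ≠ 0`. If `k = 0` and `l = 0` then `x = y = 0` (torsion free): `a = b = 1`. Otherwise `(l * n) • x = (l * k) • g = (k * m) • y` with `l * n ≠ 0` or `k * m ≠ 0`. -/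
def FRK_stmt : Prop := ∀ (G₀ : Type) [AddCommGroup G₀] (g : G₀) (H : AddSubgroup G₀), (∀ (n : ℕ) (x : G₀), n ≠ 0 → x ∈ H → n • x = 0 → x = 0) →
  (∀ x : G₀, ∃ (n : ℕ) (k : ℤ), n ≠ 0 ∧ n • x = k • g) → ∀ x y : H, ∃ a b : ℤ, (a ≠ 0 ∨ b ≠ 0) ∧ a • x = b • y

end Pool.Agent.BND
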