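import Pool.Agent.helper77.BND.SpecD

/-!
# Project bnd (MP_376aaf_an), block Y: `K₀` of the orbit-breaking algebra maps onto `K₀` of the crossed product. Rows bnd:*

RULES as in SpecD. `import Pool.Agent.helper77.BND.SpecY`. The rows of project pv (statements in `Pool/Agent/helper77/PV/SpecA.lean`, `SpecB.lean`, `SpecC.lean`, `SpecC2.lean`,
`Pool/Agent/helper53/PV/SpecD.lean`; notation `k0`, `k1`, `k0map`, `k1map`, `umap`, `uM`, `rotR`, `rotW`, `evM`, `cl`, `el`, `lal`, `lu`, `IsBe`, `IsDe`, `IsD1`, `IsD0`) may be hypotheses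
`(hYYY : Pool.Agent.PV.YYY_stmt)`; all of them are proved. The circle is `UnitAddCircle`.
-/

set_option autoImplicit false

open scoped Topology Matrix
open Filter

namespace Pool.Agent.BND

open Pool.Agent.CZ Pool.Agent.PV

/-- a closed subalgebra of the crossed product which contains `C(X)`, and `f u`, `u⁻¹ f` for all `f` which vanish near `xs` -/
structure OBA {X : Type} [TopologicalSpace X] [CompactSpace X] {A : Type} [CStarAlgebra A] (ι : C(X, ℂ) →⋆ₐ[ℂ] A) (u : unitary A) (xs : X)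
    (AY : Subalgebra ℂ A) : Prop where
  closed : IsClosed (AY : Set A)
  fn : ∀ f, ι f ∈ AY
  upm : ∀ f : C(X, ℂ), (∀ᶠ x in 𝓝 xs, f x = 0) → ι f * (u : A) ∈ AY
  dnm : ∀ f : C(X, ℂ), (∀ᶠ x in 𝓝 xs, f x = 0) → star (u : A) * ι f ∈ AY

/-- the matrix of functions `a` is the constant matrix `b` near `p` -/
def Near {X : Type} [TopologicalSpace X] {ι κ : Type} (a : Matrix ι κ C(X, ℂ)) (b : Matrix ι κ ℂ) (p : X) : Prop :=
  ∀ᶠ x in 𝓝 p, ∀ i j, a i j x = b i j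

/-- the matrix of loops of functions `a` is the constant matrix `b` near `p` -/
def NearL {X : Type} [TopologicalSpace X] {ι κ : Type} (a : Matrix ι κ C(UnitAddCircle, C(X, ℂ))) (b : Matrix ι κ ℂ) (p : X) : Prop :=
  ∀ᶠ x in 𝓝 p, ∀ i j t, a i j t x = b i j

/-- ROW bnd:YUN (short). A matrix of functions with invertible values is invertible (`Matrix.isUnit_iff_isUnit_det`; the determinant of the values is the value of the determinant; a nowhere zero function is a unit of `C(X, ℂ)`), and if `‖a i j‖`-distance to 1 is small it is invertible: if `card ι * |a i j x - 1 i j| ≤ 1/2` for all `i j` then `a(x)` is invertible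
(`linftyOp` norm `≤ 1/2`, or a diagonally dominant matrix). -/
def YUN_stmt : Prop := (∀ (X : Type) [TopologicalSpace X] [CompactSpace X] (ι : Type) [Fintype ι] [DecidableEq ι] (a : Matrix ι ι C(X, ℂ)),
    (∀ x, IsUnit (a.map fun f => f x)) → IsUnit a) ∧
  ∀ (ι : Type) [Fintype ι] [DecidableEq ι] (a : Matrix ι ι ℂ), (∀ i j, (Fintype.card ι : ℝ) * ‖a i j - (1 : Matrix ι ι ℂ) i j‖ ≤ 1 / 2) → IsUnit a

/-- ROW bnd:YN1 (medium; from YUN, GLC). `W` an open neighbourhood of `p`. `h = g(p)`, a path `γ` in `GL_n(ℂ)` with `γ 0 = h`, `γ 1 = 1` (GLC). `χ : X → [0, 1]` continuous, `χ p = 0`, `χ = 1` outside `W` (Urysohn). `g₁ x = g x (γ (χ x))⁻¹`: `g₁ p = 1`, `g₁ = g` outside `W`, homotopy `g x (γ (max (χ x) s))⁻¹`. Let `N ⊆ W` be an open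
neighbourhood of `p` with `n |g₁ - 1| ≤ 1/2`, `θ : X → [0, 1]` with `θ = 0` near `p`, `θ = 1` outside `N`: `g₂ = 1 + θ (g₁ - 1)`, homotopy `1 + (s + (1 - s) θ) (g₁ - 1)`, invertible by YUN. -/
def YN1_stmt : Prop := ∀ (X : Type) [TopologicalSpace X] [CompactSpace X] [T2Space X] (p : X) (W : Set X), IsOpen W → p ∈ W →
  ∀ (ι : Type) [Fintype ι] [DecidableEq ι] (g : (Matrix ι ι C(X, ℂ))ˣ), ∃ g₂ : (Matrix ι ι C(X, ℂ))ˣ, Htp g g₂ ∧
    Near (g₂ : Matrix ι ι C(X, ℂ)) 1 p ∧ ∀ x ∉ W, ∀ i j, (g₂ : Matrix ι ι C(X, ℂ)) i j x = (g : Matrix ι ι C(X, ℂ)) i j x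

/-- ROW bnd:YNG (short; from YN1, K1G, K1M). `y = [g]` (K1G). YN1 at `p` with `W` disjoint from a neighbourhood of `q`, then at `q` with `W'` disjoint from a neighbourhood of `p`. -/
def YNG_stmt : Prop := ∀ (X : Type) [TopologicalSpace X] [CompactSpace X] [T2Space X] (p q : X), p ≠ q → ∀ y : K1 C(X, ℂ),
  ∃ (n : ℕ) (g : (Matrix (Fin n) (Fin n) C(X, ℂ))ˣ), y = k1 g ∧ Near (g : Matrix (Fin n) (Fin n) C(X, ℂ)) 1 p ∧
    Near (g : Matrix (Fin n) (Fin n) C(X, ℂ)) 1 q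

/-- ROW bnd:YPT (medium; from YUN, K1Z, K1M). `k1 (g⁻¹ g') = 0`, K1Z: `(g⁻¹ g') ⊕ 1` is joined to 1: `γ`. `Γ₁ s = (g ⊕ 1) γ (1 - s)`: from `g ⊕ 1` to `g' ⊕ 1`. `Γ₂ s = Γ₁ s · (Γ₁ s (p))⁻¹` (constant in `x`): same ends, `Γ₂ s (p) = 1`. By compactness there is an open `N ∋ p` on which `g = g' = 1` and
`card · |Γ₂ s (x) - 1| ≤ 1/2` for all `s`. `θ : X → [0, 1]`, `θ = 0` near `p`, `θ = 1` outside `N`: `Γ s = 1 + θ (Γ₂ s - 1)`, invertible (YUN), same ends. `Γ' s` = the inverse (`Ring.inverse` is continuous at units; or adjugate and determinant). -/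
def YPT_stmt : Prop := ∀ (X : Type) [TopologicalSpace X] [CompactSpace X] [T2Space X] (p : X) (ι : Type) [Fintype ι] [DecidableEq ι]
  (g g' : (Matrix ι ι C(X, ℂ))ˣ), k1 g = k1 g' → Near (g : Matrix ι ι C(X, ℂ)) 1 p → Near (g' : Matrix ι ι C(X, ℂ)) 1 p →
  ∃ (k : ℕ) (Γ Γ' : C(unitInterval, Matrix (ι ⊕ Fin k) (ι ⊕ Fin k) C(X, ℂ))), (∀ s, Γ s * Γ' s = 1 ∧ Γ' s * Γ s = 1) ∧
    Γ 0 = Matrix.fromBlocks (g : Matrix ι ι C(X, ℂ)) 0 0 1 ∧ Γ 1 = Matrix.fromBlocks (g' : Matrix ι ι C(X, ℂ)) 0 0 1 ∧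
    ∀ᶠ x in 𝓝 p, ∀ s i j, Γ s i j x = (1 : Matrix (ι ⊕ Fin k) (ι ⊕ Fin k) ℂ) i j ∧ Γ' s i j x = (1 : Matrix (ι ⊕ Fin k) (ι ⊕ Fin k) ℂ) i j

/-- ROW bnd:PTL (medium; adapt the file PTH.lean of project pv). As PTH_stmt, and local: `W` is a product of elements `E_t E_s + (1 - E_t)(1 - E_s)`, which `π` maps to 1 if `π (E t) = π (E s)` (as `π (E s)` is an idempotent). -/
def PTL_stmt : Prop := ∀ (R : Type) [NormedRing R] [NormedAlgebra ℂ R] [CompleteSpace R] (E : C(unitInterval, R)), (∀ t, E t * E t = E t) →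
  ∃ W W' : C(unitInterval, R), W 0 = 1 ∧ (∀ t, W' t * W t = 1 ∧ W t * W' t = 1 ∧ E t * W t = W t * E 0) ∧
    ∀ (R' : Type) [Ring R'] (π : R →+* R'), (∀ t, π (E t) = π (E 0)) → ∀ t, π (W t) = 1 ∧ π (W' t) = 1

/-- the inverse of `rotW g g' s` -/
noncomputable def rotV {A : Type} [NormedRing A] [NormedAlgebra ℂ A] {ι : Type} [Fintype ι] [DecidableEq ι] (g g' : Matrix ι ι A) (s : ℝ) :
    Matrix (ι ⊕ ι) (ι ⊕ ι) A := rotR A ι s * Matrix.fromBlocks g 0 0 1 * rotR A ι (-s) * Matrix.fromBlocks g' 0 0 1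

/-- the idempotent `rotW (1 ⊕ 0) rotW⁻¹` -/
noncomputable def rotE {A : Type} [NormedRing A] [NormedAlgebra ℂ A] {ι : Type} [Fintype ι] [DecidableEq ι] (g g' : Matrix ι ι A) (s : ℝ) :
    Matrix (ι ⊕ ι) (ι ⊕ ι) A := rotW g g' s * Matrix.fromBlocks 1 0 0 0 * rotV g g' s

/-- `E` is the loop `s ↦ rotE g g' s` -/
def IsEL {B : Type} [NormedRing B] [NormedAlgebra ℂ B] {ι : Type} [Fintype ι] [DecidableEq ι] (g g' : Matrix ι ι B)
    (E : Matrix (ι ⊕ ι) (ι ⊕ ι) C(UnitAddCircle, B)) : Prop := ∀ s : unitInterval, evM E ((s : ℝ) : UnitAddCircle) = rotE g g' s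

/-- ROW bnd:YRV (short-medium). `R_s R_(-s) = 1`, so `rotW rotV = rotV rotW = 1`; `rotE` is idempotent, `rotE 0 = rotE 1 = 1 ⊕ 0` (`rotW 0 = 1`, `rotW 1 = g ⊕ g'`; see ROT of project pv), jointly continuous in `(g, g', s)`. If `g = g' = 1`: `rotE = 1 ⊕ 0`. -/
def YRV_stmt : Prop := ∀ (A : Type) [NormedRing A] [NormedAlgebra ℂ A] (ι : Type) [Fintype ι] [DecidableEq ι],
  (Continuous fun q : Matrix ι ι A × Matrix ι ι A × ℝ => rotE q.1 q.2.1 q.2.2) ∧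
  (∀ s : ℝ, rotW (1 : Matrix ι ι A) 1 s = 1 ∧ rotE (1 : Matrix ι ι A) 1 s = Matrix.fromBlocks 1 0 0 0) ∧
  ∀ (g g' : Matrix ι ι A), g * g' = 1 → g' * g = 1 → (∀ s, rotW g g' s * rotV g g' s = 1 ∧ rotV g g' s * rotW g g' s = 1 ∧
    rotE g g' s * rotE g g' s = rotE g g' s) ∧ rotE g g' 0 = Matrix.fromBlocks 1 0 0 0 ∧ rotE g g' 1 = Matrix.fromBlocks 1 0 0 0

/-- ROW bnd:YEP (medium; from YRV). The path of loops. `F (s, t) = rotE (Γ s) (Γ' s) t` is continuous on `[0,1]²` and `F (s, 0) = F (s, 1)`. Entrywise: a continuous function on `[0,1] × [0,1]` with equal values at `t = 0, 1` is a continuous function on `[0,1] × circle`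
(`AddCircle`: the map `[0,1] → circle` is a quotient map, `AddCircle.homeoIccQuot`; or define the loop for each `s` as in LPC and prove continuity in `s` from uniform continuity of `F`: `‖E s - E s'‖ ≤ sup_t ‖F (s, t) - F (s', t)‖`, as every point of the circle is some `t ∈ [0, 1]`). -/
def YEP_stmt : Prop := ∀ (B : Type) [NormedRing B] [NormedAlgebra ℂ B] [CompleteSpace B] (ι : Type) [Fintype ι] [DecidableEq ι]
  (Γ Γ' : C(unitInterval, Matrix ι ι B)), (∀ s, Γ s * Γ' s = 1 ∧ Γ' s * Γ s = 1) →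
  ∃ E : C(unitInterval, Matrix (ι ⊕ ι) (ι ⊕ ι) C(UnitAddCircle, B)), ∀ s, IsEL (Γ s) (Γ' s) (E s) ∧ E s * E s = E s

/-- ROW bnd:YDE (short-medium; from YRV, K1B, K1M). The holonomy of `E`: Hol data `V s = rotW g g⁻¹ s * (1 ⊕ 0)`, `V' s = (1 ⊕ 0) * rotV g g⁻¹ s` (compare HOG.lean of project pv); `V 1 + (1 - (1 ⊕ 0)) = g ⊕ 1`. -/
def YDE_stmt : Prop := ∀ (B : Type) [NormedRing B] [NormedAlgebra ℂ B] [CompleteSpace B] (ι : Type) [Fintype ι] [DecidableEq ι]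
  (g : (Matrix ι ι B)ˣ) (E : Matrix (ι ⊕ ι) (ι ⊕ ι) C(UnitAddCircle, B)) (hE : E * E = E), IsEL (g : Matrix ι ι B) ((g⁻¹ : (Matrix ι ι B)ˣ) : Matrix ι ι B) E →
  ∀ de : K0 C(UnitAddCircle, B) →+ K1 B, IsDe B de → de (k0 E hE) = k1 g

/-- the data for the class `y`: loop of idempotents `E`, invertible `V` with `lal(E) V = V E`, all trivial near `p` -/
structure YD {X : Type} [TopologicalSpace X] [CompactSpace X] (α : X ≃ₜ X) (h : Continuous (alC α : C(X, ℂ) →ₐ[ℂ] C(X, ℂ)))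
    (h' : Continuous ((alC α).symm : C(X, ℂ) →ₐ[ℂ] C(X, ℂ))) (p : X) {κ : Type} [Fintype κ] [DecidableEq κ]
    (E V V' : Matrix (κ ⊕ κ) (κ ⊕ κ) C(UnitAddCircle, C(X, ℂ))) : Prop where
  idem : E * E = E
  l : V * V' = 1
  r : V' * V = 1
  conj : E.map (lal (alC α) h h') * V = V * E
  ep : NearL E (Matrix.fromBlocks 1 0 0 0) p
  vp : NearL V 1 p
  vp' : NearL V' 1 p
  eq : NearL E (Matrix.fromBlocks 1 0 0 0) (α.symm p)

/-- ROW bnd:YDT (medium; from YPT, YRV, YEP, YDE, PTL, K1B, K1M). `g' = al g` is 1 near `p` (`(al g)(x) = g(α⁻¹ x)`). YPT: `Γ` from `g ⊕ 1` to `g' ⊕ 1`, `κ = Fin n ⊕ Fin k`. YEP: `𝓔 s`; `E = 𝓔 0`. `𝓔 1 = E.map (lal ..)`: both are the loop of `al g ⊕ 1` (evaluate at all `t`; `rotE` commutes with the entrywise ring homomorphism `al`).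
PTL in `R = Matrix (κ ⊕ κ) (κ ⊕ κ) C(UnitAddCircle, C(X, ℂ))` (local instances linftyOp): `V = W 1`, `V' = W' 1`, `𝓔 1 V = V 𝓔 0`. For `x` near `p` the ring homomorphism `π` = entrywise composition of the loops with evaluation at `x` maps all `𝓔 s` to `1 ⊕ 0` (YRV: `rotE 1 1 t`), so `π V = 1`.
Near `α⁻¹ p`: `g = 1` there, so `E = 1 ⊕ 0`. `de [E] = [g ⊕ 1] = [g]` (YDE, K1B). -/
def YDT_stmt : Prop := ∀ (X : Type) [TopologicalSpace X] [CompactSpace X] [T2Space X] (α : X ≃ₜ X) (h : Continuous (alC α : C(X, ℂ) →ₐ[ℂ] C(X, ℂ)))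
  (h' : Continuous ((alC α).symm : C(X, ℂ) →ₐ[ℂ] C(X, ℂ))) (p : X) (n : ℕ) (g : (Matrix (Fin n) (Fin n) C(X, ℂ))ˣ),
  Near (g : Matrix (Fin n) (Fin n) C(X, ℂ)) 1 p → Near (g : Matrix (Fin n) (Fin n) C(X, ℂ)) 1 (α.symm p) →
  k1 (umap (alC α : C(X, ℂ) →ₐ[ℂ] C(X, ℂ)).toRingHom g) = k1 g →
  ∃ (κ : Type) (_ : Fintype κ) (_ : DecidableEq κ) (E V V' : Matrix (κ ⊕ κ) (κ ⊕ κ) C(UnitAddCircle, C(X, ℂ))), YD α h h' p E V V' ∧
    ∀ (hE : E * E = E) (de : K0 C(UnitAddCircle, C(X, ℂ)) →+ K1 C(X, ℂ)), IsDe C(X, ℂ) de → de (k0 E hE) = k1 g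

/-- ROW bnd:YLM (medium). Loops in `AY`: a loop of the form `t ↦ ι (f t) + ι (g t) u + u⁻¹ ι (k t)` with `f, g, k : C(UnitAddCircle, C(X, ℂ))`, `g t = 0` and `k t = 0` near `xs` (uniformly in `t`), is (the image of) a loop in `AY` (OBA; continuity in the subtype). -/
def YLM_stmt : Prop := ∀ (X : Type) [TopologicalSpace X] [CompactSpace X] (A : Type) [CStarAlgebra A] (ι : C(X, ℂ) →⋆ₐ[ℂ] A) (u : unitary A) (xs : X)
  (AY : Subalgebra ℂ A), OBA ι u xs AY → ∀ f g k : C(UnitAddCircle, C(X, ℂ)), (∀ᶠ x in 𝓝 xs, ∀ t, g t x = 0 ∧ k t x = 0) →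
  ∃ w : C(UnitAddCircle, AY), ∀ t, (w t : A) = ι (f t) + ι (g t) * (u : A) + star (u : A) * ι (k t)

/-- ROW bnd:YIN (medium; from YLM, DZP). `P = 1 ⊕ 0` over `C(circle, C(X))`, `U` = the diagonal matrix `lu u`; `U b.map lio = (lal b).map lio U` (covariance). `v = (E V').map lio * U + 1 - E.map lio` has the inverse `U⁻¹ (V E).map lio + 1 - E.map lio` (`E V' U U⁻¹ V E = E`; `U⁻¹ V E (1 - E) = 0`, `(1 - E) E V' = 0`;
`U⁻¹ V E E V' U = U⁻¹ lal(E) U = E`), `vP` likewise. `v vP⁻¹ = E V' P + E V' (1 - P) U + (1 - E) P U⁻¹ + (1 - E)(1 - P)`, and `(1 - E) P U⁻¹ = U⁻¹ lal((1 - E) P)`; `E V' (1 - P) = 0` near `p`; `(1 - E) P = 0` near `α⁻¹ p`, so `lal((1 - E) P) = 0` near `p`. Its inverse is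
`P V E + P lal(1 - E) U + U⁻¹ (1 - P) V E + (1 - P)(1 - E)`; `P lal(1 - E) = 0` near `p` (`lal E = P` near `p`), `(1 - P) V E = 0` near `p`. YLM entrywise gives the two matrices over `C(circle, AY)`; their products are 1, because `AY → A` is injective. -/
def YIN_stmt : Prop := ∀ (X : Type) [TopologicalSpace X] [CompactSpace X] [T2Space X] (α : X ≃ₜ X) (A : Type) [CStarAlgebra A] (ι : C(X, ℂ) →⋆ₐ[ℂ] A) (u : unitary A)
  (c : ℤ → A →ₗ[ℂ] C(X, ℂ)), Cov α ι u c → ∀ (p : X) (AY : Subalgebra ℂ A), OBA ι u p AY →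
  ∀ (h : Continuous (alC α : C(X, ℂ) →ₐ[ℂ] C(X, ℂ))) (h' : Continuous ((alC α).symm : C(X, ℂ) →ₐ[ℂ] C(X, ℂ))) (hi : Continuous ι.toAlgHom) (hv : Continuous AY.val)
  (κ : Type) [Fintype κ] [DecidableEq κ] (E V V' : Matrix (κ ⊕ κ) (κ ⊕ κ) C(UnitAddCircle, C(X, ℂ))), YD α h h' p E V V' →
  ∃ (v vP : (Matrix (κ ⊕ κ) (κ ⊕ κ) C(UnitAddCircle, A))ˣ) (y : (Matrix (κ ⊕ κ) (κ ⊕ κ) C(UnitAddCircle, AY))ˣ),
    (v : Matrix (κ ⊕ κ) (κ ⊕ κ) C(UnitAddCircle, A)) = (E * V').map (cmpC UnitAddCircle ι.toAlgHom hi) *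
      (uM (κ ⊕ κ) (lu (Unitary.toUnits u)) : Matrix (κ ⊕ κ) (κ ⊕ κ) C(UnitAddCircle, A)) + (1 - E.map (cmpC UnitAddCircle ι.toAlgHom hi)) ∧
    (vP : Matrix (κ ⊕ κ) (κ ⊕ κ) C(UnitAddCircle, A)) = (Matrix.fromBlocks 1 0 0 0 : Matrix (κ ⊕ κ) (κ ⊕ κ) C(UnitAddCircle, C(X, ℂ))).map (cmpC UnitAddCircle ι.toAlgHom hi) *
      (uM (κ ⊕ κ) (lu (Unitary.toUnits u)) : Matrix (κ ⊕ κ) (κ ⊕ κ) C(UnitAddCircle, A)) +
      (1 - (Matrix.fromBlocks 1 0 0 0 : Matrix (κ ⊕ κ) (κ ⊕ κ) C(UnitAddCircle, C(X, ℂ))).map (cmpC UnitAddCircle ι.toAlgHom hi)) ∧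
    umap (cmpC UnitAddCircle AY.val hv).toRingHom y = v * vP⁻¹

/-- ROW bnd:YSU (medium; from YNG, YDT, YIN, DZP, PVS, IN0, D1N, BOT, BEN, HON, D0Y, K1M, FUN). `z ∈ K₀(A)`. PVS for the Z-pair of DZP: `d0` with `IsD0`: `be, dl, de, cc`. `y = d0 z` is fixed by `al` (D0Y): `y = [g]` with `g = 1` near `xs`, `α⁻¹ xs` (YNG), `[al g] = [g]`. YDT, YIN. IN0 for the loop pair with `(P, w, w') = (E, E V', V E)`:
`E w = w`, `w lal(E) = w`, `w w' = E`, `w' w = V E V' = lal(E)`: `dl [v] = [E]`; and with `(P, P, P)`: `dl [vP] = [P]`, `de [P] = 0` (a constant loop: HON). So `de (dl ([v] - [vP])) = de [E] = y`. BOT for the Banach algebra `AY` (complete: closed): `[y'] = cl_* a + be' b`, `b ∈ K₀(AY)` (`y'` = the unit of YIN);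
mapped to `A` (BEN, FUN): `[v] - [vP] = cl_* a' + be (val_* b)`. `de (dl (cl_* a')) = de (cl_* (d1 a')) = 0` (D1N for the map of Z-pairs (constant loops), HON). So `d0 (val_* b) = y = d0 z`, `z - val_* b = ι_* w` (exactness in PVS), and `ι` factors through `AY`. -/
def YSU_stmt : Prop := ∀ (X : Type) [TopologicalSpace X] [CompactSpace X] [T2Space X] (α : X ≃ₜ X) (A : Type) [CStarAlgebra A] (ι : C(X, ℂ) →⋆ₐ[ℂ] A) (u : unitary A)
  (c : ℤ → A →ₗ[ℂ] C(X, ℂ)), Cov α ι u c → ∀ (xs : X), xs ≠ α.symm xs → ∀ (AY : Subalgebra ℂ A), OBA ι u xs AY →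
  ∀ z : K0 A, ∃ w : K0 AY, z = k0map AY.val.toRingHom w

end Pool.Agent.BND
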