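import Pool.Agent.helper11.BND.LNZ
import Pool.Agent.helper11.BND.TIN
import Pool.Agent.helper11.BND.YDE
import Pool.Agent.helper15.BND.BEX
import Pool.Agent.helper15.BND.BIX
import Pool.Agent.helper18.BND.LGU
import Pool.Agent.helper2.BND.TCY
import Pool.Agent.helper20.BND.BTF
import Pool.Agent.helper20.BND.LZL
import Pool.Agent.helper22.BND.LLP
import Pool.Agent.helper22.BND.TLS
import Pool.Agent.helper23.BND.BFG
import Pool.Agent.helper23.BND.BFM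
import Pool.Agent.helper24.BND.LBD
import Pool.Agent.helper24.BND.LD1
import Pool.Agent.helper24.BND.SBN
import Pool.Agent.helper24.BND.TCL
import Pool.Agent.helper24.BND.TIZ
import Pool.Agent.helper25.BND.FSY
import Pool.Agent.helper25.BND.LUP
import Pool.Agent.helper26.BND.LW0
import Pool.Agent.helper27.BND.EMI
import Pool.Agent.helper27.BND.HOM
import Pool.Agent.helper27.BND.LFT
import Pool.Agent.helper27.BND.PMA
import Pool.Agent.helper27.BND.PQR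
import Pool.Agent.helper27.BND.SBT
import Pool.Agent.helper27.BND.SBV
import Pool.Agent.helper27.BND.TIV
import Pool.Agent.helper27.BND.TLI
import Pool.Agent.helper27.BND.TS1
import Pool.Agent.helper27.BND.TS2
import Pool.Agent.helper27.BND.TSP
import Pool.Agent.helper27.BND.UPC
import Pool.Agent.helper27.BND.WDC
import Pool.Agent.helper27.BND.XCP
import Pool.Agent.helper28.BND.YLM
import Pool.Agent.helper29.BND.THH
import Pool.Agent.helper3.BND.BFX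
import Pool.Agent.helper32.BND.FDN
import Pool.Agent.helper32.BND.LR0
import Pool.Agent.helper34.BND.YRV
import Pool.Agent.helper37.CZ.SB
import Pool.Agent.helper37.CZ.Top
import Pool.Agent.helper39.BND.YN1
import Pool.Agent.helper42.BND.BCO
import Pool.Agent.helper42.BND.BTH
import Pool.Agent.helper42.BND.TST
import Pool.Agent.helper42.BND.YUN
import Pool.Agent.helper44.BND.BFA
import Pool.Agent.helper45.BND.BCL
import Pool.Agent.helper45.BND.BRI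
import Pool.Agent.helper49.BND.BLK
import Pool.Agent.helper5.BND.LGM
import Pool.Agent.helper5.BND.LHT
import Pool.Agent.helper5.BND.LKZ
import Pool.Agent.helper5.BND.LPD
import Pool.Agent.helper50.BND.TPR
import Pool.Agent.helper51.BND.LGX
import Pool.Agent.helper52.BND.BKA
import Pool.Agent.helper52.BND.STL
import Pool.Agent.helper52.BND.YDT
import Pool.Agent.helper54.BND.BEQ
import Pool.Agent.helper54.BND.LPF
import Pool.Agent.helper55.BND.BRM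
import Pool.Agent.helper55.BND.STN
import Pool.Agent.helper56.BND.LDU
import Pool.Agent.helper56.BND.STE
import Pool.Agent.helper56.BND.YEP
import Pool.Agent.helper56.BND.YPT
import Pool.Agent.helper57.BND.BDM
import Pool.Agent.helper58.BND.MIN
import Pool.Agent.helper58.BND.SBA
import Pool.Agent.helper58.BND.SUC
import Pool.Agent.helper58.BND.TIJ
import Pool.Agent.helper58.BND.TSU
import Pool.Agent.helper58.BND.XIN
import Pool.Agent.helper59.BND.BPA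
import Pool.Agent.helper59.BND.BRH
import Pool.Agent.helper59.BND.YIN
import Pool.Agent.helper6.BND.BTZ
import Pool.Agent.helper6.BND.LIX
import Pool.Agent.helper60.BND.BMO
import Pool.Agent.helper60.BND.TUQ
import Pool.Agent.helper60.BND.XSU
import Pool.Agent.helper64.BND.FLS
import Pool.Agent.helper66.BND.TDN
import Pool.Agent.helper66.BND.TKL
import Pool.Agent.helper66.BND.TMM
import Pool.Agent.helper68.BND.TGF
import Pool.Agent.helper68.BND.TLB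
import Pool.Agent.helper68.BND.TLL
import Pool.Agent.helper68.BND.TPT
import Pool.Agent.helper68.BND.TWT
import Pool.Agent.helper70.BND.AllH
import Pool.Agent.helper72.BND.BIJ
import Pool.Agent.helper72.BND.BLF
import Pool.Agent.helper72.BND.BOB
import Pool.Agent.helper72.BND.FRK
import Pool.Agent.helper72.BND.LGV
import Pool.Agent.helper72.BND.LI0
import Pool.Agent.helper72.BND.LLG
import Pool.Agent.helper74.BND.LPX
import Pool.Agent.helper74.BND.SBB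
import Pool.Agent.helper74.BND.TBK
import Pool.Agent.helper76.BND.BFE
import Pool.Agent.helper76.BND.BLS
import Pool.Agent.helper76.BND.BSA
import Pool.Agent.helper79.BND.LBE
import Pool.Agent.helper83.BND.BEV
import Pool.Agent.helper83.BND.LEX
import Pool.Agent.helper84.BND.BXS
import Pool.Agent.helper84.BND.FK0
import Pool.Agent.helper88.BND.EMC
import Pool.Agent.helper88.BND.EME
import Pool.Agent.helper88.BND.FLM
import Pool.Agent.helper88.BND.FLV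
import Pool.Agent.helper88.BND.WAP
import Pool.Agent.helper88.BND.WSM
import Pool.Agent.helper9.BND.BRS
import Pool.Agent.helper9.BND.FAS
import Pool.Agent.helper9.BND.LST
import Pool.Agent.helper9.BND.SUZ
import Pool.Agent.helper9.BND.YNG
import Pool.Agent.helper90.BND.BSJ
import Pool.Agent.helper91.PV.SPK
import Pool.Agent.helper96.BND.LFP
import Pool.Agent.helper97.BND.PTL
import Pool.Agent.helper97.BND.TBI
import Pool.Agent.helper98.BND.LK1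
import Pool.Agent.helper98.BND.YSU
import Pool.Agent.helper98.PV.SGK
import Pool.Agent.helper77.PV.Top2

/-!
# Project bnd (MP_376aaf_an): assembly of the rows
-/

set_option autoImplicit false

namespace Pool.Agent.BND

open Pool.Agent.CZ Pool.Agent.PV Pool.Agent.PVH

theorem B_FDN : Pool.Agent.BND.FDN_stmt := Pool.Agent.BND.FDN

theorem B_HEX : HEX_stmt := Pool.Agent.BND.EX.a_HEX

theorem B_FLV : Pool.Agent.BND.FLV_stmt := Pool.Agent.BND.FLV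

theorem B_EMI : Pool.Agent.BND.EMI_stmt := Pool.Agent.BND.EMI B_FLV

theorem B_EME : Pool.Agent.BND.EME_stmt := Pool.Agent.BND.EME B_FLV

theorem B_LFT : Pool.Agent.BND.LFT_stmt := Pool.Agent.BND.LFT B_EMI B_EME B_FLV

theorem B_WAP : Pool.Agent.BND.WAP_stmt := Pool.Agent.BND.WAP

theorem B_FLM : Pool.Agent.BND.FLM_stmt := Pool.Agent.BND.FLM B_WAP

theorem B_FLS : Pool.Agent.BND.FLS_stmt := Pool.Agent.BND.FLS

theorem B_WDC : Pool.Agent.BND.WDC_stmt := Pool.Agent.BND.WDC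

theorem B_STN : Pool.Agent.BND.STN_stmt := Pool.Agent.BND.STN B_WDC B_WAP

theorem B_STE : Pool.Agent.BND.STE_stmt := Pool.Agent.BND.STE B_STN

theorem B_UPC : Pool.Agent.BND.UPC_stmt := Pool.Agent.BND.UPC B_FLM B_FLS B_FLV B_STE

theorem B_PMA : Pool.Agent.BND.PMA_stmt := Pool.Agent.BND.PMA B_LFT B_UPC B_STE

theorem B_EMC : Pool.Agent.BND.EMC_stmt := Pool.Agent.BND.EMC B_EME

theorem B_XCP : Pool.Agent.BND.XCP_stmt := Pool.Agent.BND.XCP B_PMA B_EMC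

theorem B_STL : Pool.Agent.BND.STL_stmt := Pool.Agent.BND.STL B_WDC B_WAP

theorem B_XSU : Pool.Agent.BND.XSU_stmt := Pool.Agent.BND.XSU B_PMA B_STL

theorem B_XIN : Pool.Agent.BND.XIN_stmt := Pool.Agent.BND.XIN B_XSU B_EMI

theorem B_PQR : Pool.Agent.BND.PQR_stmt := Pool.Agent.BND.PQR B_STN B_STE

theorem B_HOM : Pool.Agent.BND.HOM_stmt := Pool.Agent.BND.HOM B_PMA B_PQR

theorem B_SUC : Pool.Agent.BND.SUC_stmt := Pool.Agent.BND.SUC B_STN B_EMI B_EME B_FLS B_FLV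

theorem B_BLK : Pool.Agent.BND.BLK_stmt := Pool.Agent.BND.BLK B_SUC B_EME

theorem B_LPX : Pool.Agent.BND.LPX_stmt := Pool.Agent.BND.LPX B_WDC

theorem B_MIN : Pool.Agent.BND.MIN_stmt := Pool.Agent.BND.MIN B_BLK B_STL B_LPX B_PMA

theorem B_WSM : Pool.Agent.BND.WSM_stmt := Pool.Agent.BND.WSM

theorem B_SBA : Pool.Agent.BND.SBA_stmt := Pool.Agent.BND.SBA B_WSM B_EMI B_EME

theorem B_SBV : Pool.Agent.BND.SBV_stmt := Pool.Agent.BND.SBV B_SUC B_BLK B_LPX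

theorem B_SBN : Pool.Agent.BND.SBN_stmt := Pool.Agent.BND.SBN B_SBA B_SBV

theorem B_SBT : Pool.Agent.BND.SBT_stmt := Pool.Agent.BND.SBT B_LFT B_EMI B_EME B_FLV

theorem B_SBB : Pool.Agent.BND.SBB_stmt := Pool.Agent.BND.SBB B_SBN B_SBT B_PMA B_EMC

theorem B_BDM : Pool.Agent.BND.BDM_stmt := Pool.Agent.BND.BDM B_FLV

theorem B_BFG : Pool.Agent.BND.BFG_stmt := Pool.Agent.BND.BFG B_XSU B_PMA B_EME B_BDM B_FLV B_EMC

theorem B_BFA : Pool.Agent.BND.BFA_stmt := Pool.Agent.BND.BFA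

theorem B_SUZ : Pool.Agent.BND.SUZ_stmt := Pool.Agent.BND.SUZ B_SUC

theorem B_BFM : Pool.Agent.BND.BFM_stmt := Pool.Agent.BND.BFM B_SUZ B_EME B_BFG B_BDM B_XSU Pool.Agent.CZ.SMA Pool.Agent.CZ.Top_SMM

theorem B_BMO : Pool.Agent.BND.BMO_stmt := Pool.Agent.BND.BMO B_STN

theorem B_BCL : Pool.Agent.BND.BCL_stmt := Pool.Agent.BND.BCL

theorem B_BSA : Pool.Agent.BND.BSA_stmt := Pool.Agent.BND.BSA B_BFG B_BFA B_BFM B_BMO B_BCL

theorem B_YUN : Pool.Agent.BND.YUN_stmt := Pool.Agent.BND.YUN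

theorem B_YN1 : Pool.Agent.BND.YN1_stmt := Pool.Agent.BND.YN1 B_YUN T_GLC

theorem B_YNG : Pool.Agent.BND.YNG_stmt := Pool.Agent.BND.YNG B_YN1 T_K1G T_K1M

theorem B_YPT : Pool.Agent.BND.YPT_stmt := Pool.Agent.BND.YPT B_YUN T_K1Z T_K1M

theorem B_YRV : Pool.Agent.BND.YRV_stmt := Pool.Agent.BND.YRV

theorem B_YEP : Pool.Agent.BND.YEP_stmt := Pool.Agent.BND.YEP B_YRV

theorem B_YDE : Pool.Agent.BND.YDE_stmt := Pool.Agent.BND.YDE B_YRV T_K1B T_K1M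

theorem B_PTL : Pool.Agent.BND.PTL_stmt := Pool.Agent.BND.PTL

theorem B_YDT : Pool.Agent.BND.YDT_stmt := Pool.Agent.BND.YDT B_YPT B_YRV B_YEP B_YDE B_PTL T_K1B T_K1M

theorem B_YLM : Pool.Agent.BND.YLM_stmt := Pool.Agent.BND.YLM

theorem B_YIN : Pool.Agent.BND.YIN_stmt := Pool.Agent.BND.YIN B_YLM T_DZP

theorem B_YSU : Pool.Agent.BND.YSU_stmt := Pool.Agent.BND.YSU B_YNG B_YDT B_YIN T_DZP T_PVS T_IN0 T_D1N T_BOT T_BEN T_HON T_D0Y T_K1M T_FUN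

theorem B_BXS : Pool.Agent.BND.BXS_stmt := Pool.Agent.BND.BXS B_PMA B_STE B_HOM

theorem B_BLF : Pool.Agent.BND.BLF_stmt := Pool.Agent.BND.BLF B_PMA B_XCP

theorem B_BFX : Pool.Agent.BND.BFX_stmt := Pool.Agent.BND.BFX B_LFT B_BDM B_FLV B_EME

theorem B_BFE : Pool.Agent.BND.BFE_stmt := Pool.Agent.BND.BFE B_XSU

theorem B_BOB : Pool.Agent.BND.BOB_stmt := Pool.Agent.BND.BOB B_BXS B_BLF B_BFX B_BFE B_BDM B_EME B_SUC B_BLK

theorem B_BSJ : Pool.Agent.BND.BSJ_stmt := Pool.Agent.BND.BSJ B_YSU B_BXS B_BOB T_CS0 T_FUN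

theorem B_BEV : Pool.Agent.BND.BEV_stmt := Pool.Agent.BND.BEV B_BFG B_BFE B_BFA B_BFM

theorem B_BTZ : Pool.Agent.BND.BTZ_stmt := Pool.Agent.BND.BTZ B_BEV B_BFG B_BDM T_TRI

theorem B_BRH : Pool.Agent.BND.BRH_stmt := Pool.Agent.BND.BRH B_BTZ B_BEV B_BFG T_K0G

theorem B_BEX : Pool.Agent.BND.BEX_stmt := Pool.Agent.BND.BEX T_PTH T_TRI T_GLC

theorem B_BEQ : Pool.Agent.BND.BEQ_stmt := Pool.Agent.BND.BEQ B_BEX T_TRI B_BDM B_BFX B_BFG B_BFE B_BFA B_BFM B_BEV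

theorem B_BRI : Pool.Agent.BND.BRI_stmt := Pool.Agent.BND.BRI B_BEQ B_BFG T_K0G T_K0E T_K0B

theorem B_BIX : Pool.Agent.BND.BIX_stmt := Pool.Agent.BND.BIX T_TRI T_GLC

theorem B_BRS : Pool.Agent.BND.BRS_stmt := Pool.Agent.BND.BRS B_BIX B_BDM B_BFX B_BFG B_BFE B_BFA B_BFM

theorem B_BRM : Pool.Agent.BND.BRM_stmt := Pool.Agent.BND.BRM B_WSM B_BFG B_BFE B_XSU B_STN T_K0G

theorem B_BTF : Pool.Agent.BND.BTF_stmt := Pool.Agent.BND.BTF B_BFG B_BTZ B_XSU B_LFT B_BDM T_K0G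

theorem B_BLS : Pool.Agent.BND.BLS_stmt := Pool.Agent.BND.BLS B_WSM B_LPX B_PMA B_FLM

theorem B_BIJ : Pool.Agent.BND.BIJ_stmt := Pool.Agent.BND.BIJ B_BTF B_BLS B_BXS B_SUC B_SUZ B_LPX B_XSU Pool.Agent.CZ.Top_DMP Pool.Agent.CZ.SMA

theorem B_BTH : Pool.Agent.BND.BTH_stmt := Pool.Agent.BND.BTH

theorem B_BCO : Pool.Agent.BND.BCO_stmt := Pool.Agent.BND.BCO

theorem B_BKA : Pool.Agent.BND.BKA_stmt := Pool.Agent.BND.BKA B_BSA B_BSJ B_BRH B_BRI B_BRS B_BRM B_BIJ B_BTH B_BCO T_FUN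

theorem B_BPA : Pool.Agent.BND.BPA_stmt := Pool.Agent.BND.BPA B_BTF B_BLS B_BTH

theorem B_TPT : Pool.Agent.BND.TPT_stmt := Pool.Agent.BND.TPT B_XSU

theorem B_TWT : Pool.Agent.BND.TWT_stmt := Pool.Agent.BND.TWT

theorem B_TLB : Pool.Agent.BND.TLB_stmt := Pool.Agent.BND.TLB

theorem B_TDN : Pool.Agent.BND.TDN_stmt := Pool.Agent.BND.TDN B_PMA B_XCP B_EMC

theorem B_TLS : Pool.Agent.BND.TLS_stmt := Pool.Agent.BND.TLS B_WDC B_WSM

theorem B_TS1 : Pool.Agent.BND.TS1_stmt := Pool.Agent.BND.TS1 B_TLS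

theorem B_TSP : Pool.Agent.BND.TSP_stmt := Pool.Agent.BND.TSP B_TS1

theorem B_TLL : Pool.Agent.BND.TLL_stmt := Pool.Agent.BND.TLL B_LPX

theorem B_TCY : Pool.Agent.BND.TCY_stmt := Pool.Agent.BND.TCY B_TDN B_TSP B_TLL B_TLB

theorem B_TLI : Pool.Agent.BND.TLI_stmt := Pool.Agent.BND.TLI B_TWT B_TLB B_TCY

theorem B_TIV : Pool.Agent.BND.TIV_stmt := Pool.Agent.BND.TIV B_SUC B_LPX

theorem B_TIN : Pool.Agent.BND.TIN_stmt := Pool.Agent.BND.TIN B_TIV B_TDN B_TLB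

theorem B_TGF : Pool.Agent.BND.TGF_stmt := Pool.Agent.BND.TGF B_FLV

theorem B_THH : Pool.Agent.BND.THH_stmt := Pool.Agent.BND.THH

theorem B_TIZ : Pool.Agent.BND.TIZ_stmt := Pool.Agent.BND.TIZ B_THH

theorem B_TIJ : Pool.Agent.BND.TIJ_stmt := Pool.Agent.BND.TIJ B_TSP B_TLL B_TGF B_TIZ

theorem B_TUQ : Pool.Agent.BND.TUQ_stmt := Pool.Agent.BND.TUQ Pool.Agent.PVH.SPK

theorem B_TS2 : Pool.Agent.BND.TS2_stmt := Pool.Agent.BND.TS2 B_TLS

theorem B_TKL : Pool.Agent.BND.TKL_stmt := Pool.Agent.BND.TKL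

theorem B_TPR : Pool.Agent.BND.TPR_stmt := Pool.Agent.BND.TPR B_THH

theorem B_TBK : Pool.Agent.BND.TBK_stmt := Pool.Agent.BND.TBK B_SUC B_BLK B_LPX

theorem B_TBI : Pool.Agent.BND.TBI_stmt := Pool.Agent.BND.TBI

theorem B_TCL : Pool.Agent.BND.TCL_stmt := Pool.Agent.BND.TCL B_TWT B_TS1 B_TS2 B_TKL B_TPR B_TBK B_TBI

theorem B_TMM : Pool.Agent.BND.TMM_stmt := Pool.Agent.BND.TMM

theorem B_TSU : Pool.Agent.BND.TSU_stmt := Pool.Agent.BND.TSU B_TCL B_TDN B_TLL B_TMM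

theorem B_TST : Pool.Agent.BND.TST_stmt := Pool.Agent.BND.TST B_TPT B_TLI B_TWT B_TIN B_TIJ B_TUQ B_TSU B_TLL

theorem B_FSY : Pool.Agent.BND.FSY_stmt := Pool.Agent.BND.FSY B_XCP B_XIN B_HOM B_MIN B_SBB T_LCP T_COE B_BKA B_BPA B_TST T_JKT

theorem B_LIX : Pool.Agent.BND.LIX_stmt := Pool.Agent.BND.LIX T_K1G T_K1M T_K1C B_BLF

theorem B_LGM : Pool.Agent.BND.LGM_stmt := Pool.Agent.BND.LGM B_BDM B_BFA B_BFM

theorem B_LGX : Pool.Agent.BND.LGX_stmt := Pool.Agent.BND.LGX B_BFG B_BFE B_BFA B_LGM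

theorem B_LBD : Pool.Agent.BND.LBD_stmt := Pool.Agent.BND.LBD

theorem B_LBE : Pool.Agent.BND.LBE_stmt := Pool.Agent.BND.LBE B_LBD

theorem B_LLG : Pool.Agent.BND.LLG_stmt := Pool.Agent.BND.LLG B_LBE

theorem B_LNZ : Pool.Agent.BND.LNZ_stmt := Pool.Agent.BND.LNZ

theorem B_LUP : Pool.Agent.BND.LUP_stmt := Pool.Agent.BND.LUP B_WDC B_XSU

theorem B_LDU : Pool.Agent.BND.LDU_stmt := Pool.Agent.BND.LDU B_LUP B_LBD

theorem B_LST : Pool.Agent.BND.LST_stmt := Pool.Agent.BND.LST B_LGX B_LLG B_LNZ B_LDU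

theorem B_LPD : Pool.Agent.BND.LPD_stmt := Pool.Agent.BND.LPD T_GLC

theorem B_LGV : Pool.Agent.BND.LGV_stmt := Pool.Agent.BND.LGV B_BDM

theorem B_LGU : Pool.Agent.BND.LGU_stmt := Pool.Agent.BND.LGU B_BFX B_BFE B_BFA B_LGV B_LGM

theorem B_LHT : Pool.Agent.BND.LHT_stmt := Pool.Agent.BND.LHT B_LGU B_BFE B_BFA T_K1M

theorem B_LPF : Pool.Agent.BND.LPF_stmt := Pool.Agent.BND.LPF B_LPD B_LBE B_BDM B_LGU B_LHT B_BFA T_K1M

theorem B_LD1 : Pool.Agent.BND.LD1_stmt := Pool.Agent.BND.LD1 T_K1M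

theorem B_LW0 : Pool.Agent.BND.LW0_stmt := Pool.Agent.BND.LW0 B_LD1 T_KS T_K1M

theorem B_LLP : Pool.Agent.BND.LLP_stmt := Pool.Agent.BND.LLP B_LW0 T_K1Z

theorem B_LEX : Pool.Agent.BND.LEX_stmt := Pool.Agent.BND.LEX B_LLP B_LHT B_BDM B_BFA T_K1B T_K1M

theorem B_LZL : Pool.Agent.BND.LZL_stmt := Pool.Agent.BND.LZL B_LPF B_LEX B_LGM T_K1M

theorem B_LKZ : Pool.Agent.BND.LKZ_stmt := Pool.Agent.BND.LKZ T_K1G B_LST B_LZL

theorem B_LI0 : Pool.Agent.BND.LI0_stmt := Pool.Agent.BND.LI0 B_LIX B_LKZ T_FUN B_BSA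

theorem B_LFP : Pool.Agent.BND.LFP_stmt := Pool.Agent.BND.LFP T_TRI B_BEX B_LFT B_EME B_FLV

theorem B_LR0 : Pool.Agent.BND.LR0_stmt := Pool.Agent.BND.LR0 B_LFP B_BLF B_XSU B_EMC T_CS0 T_K0G T_K0E T_K0B

theorem B_LK1 : Pool.Agent.BND.LK1_stmt := Pool.Agent.BND.LK1 B_LI0 B_LR0 B_MIN T_RNK T_PVS T_DZP T_FUN B_XSU

theorem B_FLK : FLK_stmt :=
  fun _ _ _ _ B M _ _ _ G hG _ α A _ ι u c hc => B_LK1 B M α A ι u c hc G hG

theorem B_FK0 : Pool.Agent.BND.FK0_stmt := Pool.Agent.BND.FK0 B_FDN Pool.Agent.PVH.SGK B_HEX B_FSY B_FLK T_KHI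

theorem B_FAS : Pool.Agent.BND.FAS_stmt := Pool.Agent.BND.FAS T_KSC T_KHI

theorem B_FRK : Pool.Agent.BND.FRK_stmt := Pool.Agent.BND.FRK

end Pool.Agent.BND
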