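import Pool.Agent.helper77.BND.Top
import Pool.Agent.helper77.BND.Fin

/-!
# Project bnd (MP_376aaf_an): the two theorems, without hypotheses
-/

set_option autoImplicit false

namespace Pool.Agent.BND

open Pool.Agent.CZ Pool.Agent.PV Pool.Agent.PVH

/-- the range of the `K₀`-part of the invariant -/
theorem T_K0Range (E : Type) [AddCommGroup E] [Module ℝ E]
    [TopologicalSpace E] [IsTopologicalAddGroup E] [ContinuousSMul ℝ E] [LocallyConvexSpace ℝ E] [T2Space E]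
    (K : Set E) [TopologicalSpace.MetrizableSpace K] (hK : IsCompact K) (hc : Convex ℝ K) (hn : K.Nonempty) (hs : IsSimplex K)
    (G₀ : Type) [AddCommGroup G₀] [Countable G₀] (g : G₀) (ρ : G₀ →+ C(K, ℝ)) (ha : ∀ x, IsAff (ρ x)) (h1 : ρ g = 1) :
    ((∃ (G₁ : Type) (_ : AddCommGroup G₁), Occurs g G₁ K ρ) ↔ Cond0 g K ρ) ∧
    ((∃ (G₁ : Type) (_ : AddCommGroup G₁), OccursSBP g G₁ K ρ) ↔ Cond0 g K ρ) ∧
    (Cond0 g K ρ → ∃ (J : Type) (_ : AddCommGroup J), ∀ (G' : Type) [AddCommGroup G'] [Countable G'],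
      OccursSBP g (J × G') K ρ) :=
  Fin_K0 B_FK0 B_FAS T_KNE E K hK hc hn hs G₀ g ρ ha h1

/-- rank one -/
theorem T_RankOne (E : Type) [AddCommGroup E]
    [Module ℝ E] [TopologicalSpace E] [IsTopologicalAddGroup E] [ContinuousSMul ℝ E] [LocallyConvexSpace ℝ E] [T2Space E]
    (K : Set E) [TopologicalSpace.MetrizableSpace K] (hK : IsCompact K) (hc : Convex ℝ K) (hn : K.Nonempty) (hs : IsSimplex K)
    (G₀ : Type) [AddCommGroup G₀] [Countable G₀] (g : G₀) (ρ : G₀ →+ C(K, ℝ)) (ha : ∀ x, IsAff (ρ x)) (h1 : ρ g = 1) :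
    (∀ H S : AddSubgroup G₀, IsCompl H S → g ∈ H → (∀ (n : ℕ) (x : G₀), n ≠ 0 → x ∈ H → n • x = 0 → x = 0) →
      (∀ x y : H, ∃ a b : ℤ, (a ≠ 0 ∨ b ≠ 0) ∧ a • x = b • y) → (∀ x ∈ S, ρ x = 0) →
      ∀ (G' : Type) [AddCommGroup G'] [Countable G'], OccursSBP g (ℤ × G') K ρ) ∧
    ((∀ x : G₀, ∃ (n : ℕ) (k : ℤ), n ≠ 0 ∧ n • x = k • g) → ∀ (G₁ : Type) [AddCommGroup G₁] [Countable G₁],
      (Occurs g G₁ K ρ ↔ RangeCond g G₁ K ρ) ∧ (OccursSBP g G₁ K ρ ↔ RangeCond g G₁ K ρ)) :=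
  Fin_R1 B_FK0 B_FAS T_KNE B_FRK E K hK hc hn hs G₀ g ρ ha h1

end Pool.Agent.BND
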